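import Mathlib
import Pool.Agent.H22.KF.Targets
import Pool.Agent.H27.KF.Norms

/-!
# MP_3fd637_nt, module BULK : Cauchy-Schwarz over flags (helper48)
-/

open MeasureTheory Filter Topology
open scoped ENNReal

namespace KF48B

open KF

/-- index of the unit log box -/
noncomputable def lg (x : VZ) : ℕ := ⌊Real.log (nz x)⌋₊

theorem lg_le {x : VZ} (hx : 1 ≤ nz x) : Real.exp (lg x) ≤ nz x := by
  have h1 : ((lg x : ℕ) : ℝ) ≤ Real.log (nz x) := Nat.floor_le (Real.log_nonneg hx)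
  calc Real.exp (lg x) ≤ Real.exp (Real.log (nz x)) := Real.exp_le_exp.2 h1
    _ = nz x := Real.exp_log (by linarith)

theorem lt_lg {x : VZ} (hx : 1 ≤ nz x) : nz x < Real.exp ((lg x : ℕ) + 1) := by
  have h1 : Real.log (nz x) < (lg x : ℕ) + 1 := Nat.lt_floor_add_one _
  calc nz x = Real.exp (Real.log (nz x)) := (Real.exp_log (by linarith)).symm
    _ < _ := Real.exp_lt_exp.2 h1

theorem one_le_w {φ : Frame} {a : ℝ} (h : nz (φ.v 0) ^ 2 ≤ a * nz φ.w) : 1 ≤ nz φ.w := by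
  apply KFL.one_le_nz
  intro h0
  have h1 := KFL.nz_pos (φ.v_ne 0)
  have h2 : nz φ.w = 0 := by
    rw [h0]
    unfold nz nrm cst
    simp
  rw [h2] at h
  nlinarith

/-- heights below `C0 m` -/
theorem heights {A B a : ℝ} (hA : 1 ≤ A) (hB : 1 ≤ B) (h1 : A ^ 2 ≤ a * B) (h2 : B ^ 2 ≤ a * A) :
    A ≤ a := by
  have ha : 0 < a := by
    by_contra h
    push Not at h
    nlinarith
  have h3 : (A ^ 2) ^ 2 ≤ (a * B) ^ 2 := by
    apply pow_le_pow_left₀ (by positivity) h1
  have h4 : A ^ 3 * A ≤ a ^ 3 * A := by nlinarith [mul_le_mul_of_nonneg_left h2 (sq_nonneg a)]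
  have h5 : A ^ 3 ≤ a ^ 3 := le_of_mul_le_mul_right h4 (by linarith)
  exact le_of_pow_le_pow_left₀ (by norm_num) ha.le h5

theorem bulk (hSM : T_SM) : T_BULK := by
  classical
  intro c C0 hc hC0
  obtain ⟨C1, hC1⟩ := hSM c (max (C0 * Real.exp 1) 1) hc (by positivity)
  set K : ℝ := 1 + (|Real.log C0| + 1) / Real.log 2 with hK
  refine ⟨K * Real.exp 2 * Real.sqrt |C1|, ?_⟩
  intro m s t hm ht hs
  have hl2 : 0 < Real.log 2 := Real.log_pos (by norm_num)
  have hm2 : (2 : ℝ) ≤ m := by exact_mod_cast hm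
  have hlm : Real.log 2 ≤ Real.log m := Real.log_le_log (by norm_num) hm2
  have hlm0 : 0 < Real.log m := lt_of_lt_of_le hl2 hlm
  have hKpos : 0 < K := by rw [hK]; positivity
  set flag : Frame → VZ × VZ := fun φ => (φ.v 0, φ.w) with hflag
  set F := s.image (fun φ => (φ.v 0, φ.w)) with hF
  set X : VZ × VZ → ℝ := fun z => ((s.filter (fun φ => flag φ = z)).card : ℝ) with hX
  -- step 1
  have step1 : ∑ φ ∈ s, t (φ.v 0) = ∑ z ∈ F, X z * t z.1 := by
    rw [← Finset.sum_fiberwise_of_maps_to (s := s) (t := F) (g := flag)]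
    · apply Finset.sum_congr rfl
      intro z _
      have h1 : ∀ φ ∈ s.filter (fun φ => flag φ = z), t (φ.v 0) = t z.1 := by
        intro φ hφ
        rw [← (Finset.mem_filter.1 hφ).2]
      rw [Finset.sum_congr rfl h1, Finset.sum_const, nsmul_eq_mul]
    · intro φ hφ
      exact Finset.mem_image_of_mem _ hφ
  -- positivity of heights on F
  have hFpos : ∀ z ∈ F, 1 ≤ nz z.1 ∧ 1 ≤ nz z.2 ∧ nz z.1 ^ 2 ≤ C0 * m * nz z.2 ∧
      nz z.2 ^ 2 ≤ C0 * m * nz z.1 ∧ nz z.1 * nz z.2 * Real.log m ≤ (m : ℝ) ^ 2 := by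
    intro z hz
    obtain ⟨φ, hφ, rfl⟩ := Finset.mem_image.1 hz
    obtain ⟨h1, h2, h3, h4, h5⟩ := hs φ hφ
    exact ⟨KFL.one_le_nz (φ.v_ne 0), one_le_w h3, h3, h4, h5⟩
  -- step 2
  have step2 : ∑ z ∈ F, X z * t z.1 ≤
      Real.sqrt (∑ z ∈ F, (X z * (nz z.1 * nz z.2)) ^ 2) *
      Real.sqrt (∑ z ∈ F, t z.1 ^ 2 / (nz z.1 ^ 2 * nz z.2 ^ 2)) := by
    have h1 := Real.sum_mul_le_sqrt_mul_sqrt F (fun z => X z * (nz z.1 * nz z.2))
      (fun z => t z.1 / (nz z.1 * nz z.2))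
    have h2 : ∑ z ∈ F, X z * t z.1 =
        ∑ z ∈ F, (X z * (nz z.1 * nz z.2)) * (t z.1 / (nz z.1 * nz z.2)) := by
      apply Finset.sum_congr rfl
      intro z hz
      obtain ⟨h1, h2, -⟩ := hFpos z hz
      have h3 : nz z.1 ≠ 0 := by linarith
      have h4 : nz z.2 ≠ 0 := by linarith
      field_simp
    have h3 : ∑ z ∈ F, t z.1 ^ 2 / (nz z.1 ^ 2 * nz z.2 ^ 2) =
        ∑ z ∈ F, (t z.1 / (nz z.1 * nz z.2)) ^ 2 := by
      apply Finset.sum_congr rfl
      intro z hz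
      rw [div_pow, mul_pow]
    rw [h2, h3]
    exact h1
  -- boxes
  set bx : VZ × VZ → ℕ × ℕ := fun z => (lg z.1, lg z.2) with hbx
  set N : ℕ := ⌊|Real.log C0| + Real.log m⌋₊ + 1 with hN
  have hNle : (N : ℝ) ≤ K * Real.log m := by
    have h1 : ((⌊|Real.log C0| + Real.log m⌋₊ : ℕ) : ℝ) ≤ |Real.log C0| + Real.log m :=
      Nat.floor_le (by positivity)
    have h2 : (|Real.log C0| + 1) * Real.log 2 ≤ (|Real.log C0| + 1) * Real.log m :=
      mul_le_mul_of_nonneg_left hlm (by positivity)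
    have h3 : |Real.log C0| + 1 ≤ (|Real.log C0| + 1) / Real.log 2 * Real.log m := by
      rw [div_mul_eq_mul_div, le_div_iff₀ hl2]
      exact h2
    rw [hN, hK]
    push_cast
    nlinarith
  have hmaps : ∀ z ∈ F, bx z ∈ Finset.range N ×ˢ Finset.range N := by
    intro z hz
    obtain ⟨h1, h2, h3, h4, h5⟩ := hFpos z hz
    have h6 : nz z.1 ≤ C0 * m := heights h1 h2 h3 h4
    have h7 : nz z.2 ≤ C0 * m := heights h2 h1 h4 h3
    have h8 : Real.log (C0 * m) ≤ |Real.log C0| + Real.log m := by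
      rw [Real.log_mul hC0.ne' (by linarith)]
      linarith [le_abs_self (Real.log C0)]
    have key : ∀ x : VZ, 1 ≤ nz x → nz x ≤ C0 * m → lg x < N := by
      intro x hx1 hx2
      rw [hN, Nat.lt_succ_iff]
      apply Nat.floor_le_floor
      exact (Real.log_le_log (by linarith) hx2).trans h8
    rw [hbx, Finset.mem_product, Finset.mem_range, Finset.mem_range]
    exact ⟨key _ h1 h6, key _ h2 h7⟩
  -- one box
  have box : ∀ b : ℕ × ℕ, ∑ z ∈ F.filter (fun z => bx z = b), (X z * (nz z.1 * nz z.2)) ^ 2 ≤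
      Real.exp 4 * |C1| * (m : ℝ) ^ 12 := by
    rintro ⟨p, q⟩
    set Fb := F.filter (fun z => bx z = (p, q)) with hFb
    rcases Fb.eq_empty_or_nonempty with he | ⟨z0, hz0⟩
    · rw [he, Finset.sum_empty]
      positivity
    have hbox : ∀ z ∈ Fb, Real.exp p ≤ nz z.1 ∧ nz z.1 < Real.exp (p + 1) ∧
        Real.exp q ≤ nz z.2 ∧ nz z.2 < Real.exp (q + 1) := by
      intro z hz
      rw [hFb, Finset.mem_filter] at hz
      obtain ⟨h1, h2, -⟩ := hFpos z hz.1
      have h3 := hz.2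
      rw [hbx, Prod.mk.injEq] at h3
      have h4 := lg_le h1
      have h5 := lt_lg h1
      have h6 := lg_le h2
      have h7 := lt_lg h2
      rw [h3.1] at h4 h5
      rw [h3.2] at h6 h7
      exact ⟨h4, h5, h6, h7⟩
    -- the pairs
    set P := (s ×ˢ s).filter (fun t => flag t.1 = flag t.2 ∧ bx (flag t.1) = (p, q)) with hP
    have hPcard : ∑ z ∈ Fb, X z ^ 2 = (P.card : ℝ) := by
      have h1 : P.card = ∑ z ∈ Fb, (P.filter (fun t => flag t.1 = z)).card := by
        apply Finset.card_eq_sum_card_fiberwise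
        intro t ht
        have ht' := Finset.mem_filter.1 ht
        have ht2 := Finset.mem_product.1 ht'.1
        simp only [hFb, Finset.coe_filter, Set.mem_ofPred_eq]
        exact ⟨Finset.mem_image_of_mem _ ht2.1, ht'.2.2⟩
      rw [h1]
      push_cast
      apply Finset.sum_congr rfl
      intro z hz
      rw [hFb, Finset.mem_filter] at hz
      have h2 : P.filter (fun t => flag t.1 = z) =
          (s.filter (fun φ => flag φ = z)) ×ˢ (s.filter (fun φ => flag φ = z)) := by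
        ext t
        simp only [hP, Finset.mem_filter, Finset.mem_product]
        constructor
        · rintro ⟨⟨⟨h1, h2⟩, h3, h4⟩, h5⟩
          exact ⟨⟨h1, h5⟩, h2, by rw [← h3, h5]⟩
        · rintro ⟨⟨h1, h2⟩, h3, h4⟩
          exact ⟨⟨⟨h1, h3⟩, by rw [h2, h4], by rw [h2]; exact hz.2⟩, h2⟩
      rw [h2, Finset.card_product, hX]
      push_cast
      ring
    have hP1 : (P.card : ℝ) ≤ C1 * (m : ℝ) ^ 12 / Real.exp (2 * (p + q)) := by
      obtain ⟨a1, a2, a3, a4, a5⟩ := hFpos z0 (Finset.mem_filter.1 hz0).1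
      obtain ⟨b1, b2, b3, b4⟩ := hbox z0 hz0
      have hC : C0 * Real.exp 1 ≤ max (C0 * Real.exp 1) 1 := le_max_left _ _
      have hC' : (1 : ℝ) ≤ max (C0 * Real.exp 1) 1 := le_max_right _ _
      set D := max (C0 * Real.exp 1) 1 with hD
      have hm0 : (0 : ℝ) < m := by linarith
      apply hC1 m p q P hm
      · calc Real.exp (2 * p) = Real.exp p ^ 2 := by rw [← Real.exp_nat_mul]; norm_num
          _ ≤ nz z0.1 ^ 2 := pow_le_pow_left₀ (Real.exp_pos _).le b1 2
          _ ≤ C0 * m * nz z0.2 := a3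
          _ ≤ C0 * m * Real.exp (q + 1) := mul_le_mul_of_nonneg_left b4.le (by positivity)
          _ = (C0 * Real.exp 1) * m * Real.exp q := by rw [Real.exp_add]; ring
          _ ≤ D * m * Real.exp q := by gcongr
      · calc Real.exp (2 * q) = Real.exp q ^ 2 := by rw [← Real.exp_nat_mul]; norm_num
          _ ≤ nz z0.2 ^ 2 := pow_le_pow_left₀ (Real.exp_pos _).le b3 2
          _ ≤ C0 * m * nz z0.1 := a4
          _ ≤ C0 * m * Real.exp (p + 1) := mul_le_mul_of_nonneg_left b2.le (by positivity)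
          _ = (C0 * Real.exp 1) * m * Real.exp p := by rw [Real.exp_add]; ring
          _ ≤ D * m * Real.exp p := by gcongr
      · calc Real.exp (p + q) * Real.log m = Real.exp p * Real.exp q * Real.log m := by
              rw [Real.exp_add]
          _ ≤ nz z0.1 * nz z0.2 * Real.log m := by gcongr
          _ ≤ (m : ℝ) ^ 2 := a5
          _ ≤ D * (m : ℝ) ^ 2 := by nlinarith [sq_nonneg (m : ℝ)]
      · intro t ht
        have ht' := Finset.mem_filter.1 ht
        have ht2 := Finset.mem_product.1 ht'.1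
        obtain ⟨c1, c2, -⟩ := hs t.1 ht2.1
        obtain ⟨d1, d2, -⟩ := hs t.2 ht2.2
        have h3 := ht'.2.1
        simp only [hflag, Prod.mk.injEq] at h3
        have hz : flag t.1 ∈ Fb := by
          rw [hFb, Finset.mem_filter]
          exact ⟨Finset.mem_image_of_mem _ ht2.1, ht'.2.2⟩
        obtain ⟨e1, e2, e3, e4⟩ := hbox _ hz
        exact ⟨c1, d1, c2, d2, h3.1, h3.2, ⟨e1, e2⟩, e3, e4⟩
    have hP2 : (P.card : ℝ) ≤ |C1| * (m : ℝ) ^ 12 / Real.exp (2 * (p + q)) := by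
      refine hP1.trans ?_
      gcongr
      exact le_abs_self _
    have hle : ∀ z ∈ Fb, (X z * (nz z.1 * nz z.2)) ^ 2 ≤ Real.exp (2 * (p + q) + 4) * X z ^ 2 := by
      intro z hz
      obtain ⟨e1, e2, e3, e4⟩ := hbox z hz
      have h1 : 0 ≤ nz z.1 := KFL.nz_nonneg _
      have h2 : 0 ≤ nz z.2 := KFL.nz_nonneg _
      have h3 : nz z.1 * nz z.2 ≤ Real.exp (p + 1) * Real.exp (q + 1) :=
        mul_le_mul e2.le e4.le h2 (Real.exp_pos _).le
      have h4 : (nz z.1 * nz z.2) ^ 2 ≤ (Real.exp (p + 1) * Real.exp (q + 1)) ^ 2 :=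
        pow_le_pow_left₀ (by positivity) h3 2
      have h5 : (Real.exp (p + 1) * Real.exp (q + 1)) ^ 2 = Real.exp (2 * (p + q) + 4) := by
        rw [← Real.exp_add, ← Real.exp_nat_mul]
        congr 1
        push_cast
        ring
      rw [mul_pow, ← h5, mul_comm]
      exact mul_le_mul_of_nonneg_right h4 (sq_nonneg _)
    calc ∑ z ∈ Fb, (X z * (nz z.1 * nz z.2)) ^ 2
        ≤ ∑ z ∈ Fb, Real.exp (2 * (p + q) + 4) * X z ^ 2 := Finset.sum_le_sum hle
      _ = Real.exp (2 * (p + q) + 4) * (P.card : ℝ) := by rw [← Finset.mul_sum, hPcard]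
      _ ≤ Real.exp (2 * (p + q) + 4) * (|C1| * (m : ℝ) ^ 12 / Real.exp (2 * (p + q))) :=
          mul_le_mul_of_nonneg_left hP2 (Real.exp_pos _).le
      _ = Real.exp 4 * |C1| * (m : ℝ) ^ 12 := by
          rw [Real.exp_add]
          have := (Real.exp_pos (2 * ((p : ℝ) + q))).ne'
          field_simp
  have step3 : ∑ z ∈ F, (X z * (nz z.1 * nz z.2)) ^ 2 ≤
      (K * Real.log m) ^ 2 * (Real.exp 4 * |C1| * (m : ℝ) ^ 12) := by
    rw [← Finset.sum_fiberwise_of_maps_to hmaps]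
    calc ∑ b ∈ Finset.range N ×ˢ Finset.range N,
          ∑ z ∈ F.filter (fun z => bx z = b), (X z * (nz z.1 * nz z.2)) ^ 2
        ≤ ∑ _b ∈ Finset.range N ×ˢ Finset.range N, Real.exp 4 * |C1| * (m : ℝ) ^ 12 :=
          Finset.sum_le_sum (fun b _ => box b)
      _ = (N : ℝ) ^ 2 * (Real.exp 4 * |C1| * (m : ℝ) ^ 12) := by
          rw [Finset.sum_const, Finset.card_product, Finset.card_range, nsmul_eq_mul]
          push_cast
          ring
      _ ≤ _ := by
          apply mul_le_mul_of_nonneg_right _ (by positivity)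
          exact pow_le_pow_left₀ (Nat.cast_nonneg _) hNle 2
  have step4 : Real.sqrt (∑ z ∈ F, (X z * (nz z.1 * nz z.2)) ^ 2) ≤
      K * Real.exp 2 * Real.sqrt |C1| * (m : ℝ) ^ 6 * Real.log m := by
    apply Real.sqrt_le_iff.2
    refine ⟨by positivity, step3.trans (le_of_eq ?_)⟩
    have h1 : Real.sqrt |C1| ^ 2 = |C1| := Real.sq_sqrt (abs_nonneg _)
    have h2 : Real.exp 2 ^ 2 = Real.exp 4 := by
      rw [← Real.exp_nat_mul]; norm_num
    have h3 : (K * Real.exp 2 * Real.sqrt |C1| * (m : ℝ) ^ 6 * Real.log m) ^ 2 =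
        K ^ 2 * Real.exp 2 ^ 2 * Real.sqrt |C1| ^ 2 * (m : ℝ) ^ 12 * Real.log m ^ 2 := by ring
    rw [h3, h1, h2]
    ring
  rw [step1]
  refine step2.trans ?_
  exact mul_le_mul_of_nonneg_right step4 (Real.sqrt_nonneg _)

end KF48B
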