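import Mathlib
import Pool.Agent.H22.KF.Targets

/-!
# MP_3fd637_nt, module HOPF : measure rigidity (helper48)
-/

open MeasureTheory Filter Topology
open scoped ENNReal CompactlySupported

namespace KF48

open KF

theorem meas_mulR (c : GR) : Measurable (fun g : GR => g * c) :=
  (continuous_mul_const c).measurable

theorem meas_mulL (c : GR) : Measurable (fun g : GR => c * g) :=
  (continuous_const_mul c).measurable

/-- right invariance under `Gam` -/
theorem rinv {ρ : Measure GR} (hl : ∀ s : Fin 3 → ℝ, ρ.map (fun g => dg s * g) = ρ)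
    (hr : ∀ γ : GZ, ρ.map (fun g => g * toR γ) = ρ) (γ : Gam) :
    ρ.map (fun g => g * (γ : GR)) = ρ := by
  obtain ⟨γ, z, k, hk⟩ := γ
  have h1 : (fun g : GR => g * γ) = (fun g => scal k * g) ∘ (fun g => g * toR z) := by
    funext g
    simp only [Function.comp]
    rw [hk, ← mul_assoc, ← scal_comm]
  show ρ.map (fun g => g * γ) = ρ
  rw [h1, ← Measure.map_map (meas_mulL _) (meas_mulR _), hr z]
  exact hl _

/-- the indicator of a strict fundamental domain sums to one -/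
theorem tsum_ind {D : Set GR} (hD : IsFD D) (g : GR) :
    ∑' γ : Gam, D.indicator (fun _ => (1 : ℝ≥0∞)) (g * (γ : GR)) = 1 := by
  obtain ⟨γ0, h0, hu⟩ := hD.2 g
  rw [tsum_eq_single γ0]
  · exact Set.indicator_of_mem h0 _
  · intro γ hγ
    apply Set.indicator_of_notMem
    intro h
    exact hγ (hu γ h)

/-- unfolding -/
theorem unfold_lint [Countable Gam] {D : Set GR} (hD : IsFD D) {μ : Measure GR}
    (hG : ∀ γ : Gam, μ.map (fun g => g * (γ : GR)) = μ) {F : GR → ℝ≥0∞} (hF : Measurable F) :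
    ∫⁻ g in D, ∑' γ : Gam, F (g * (γ : GR)) ∂μ = ∫⁻ g, F g ∂μ := by
  have h1 : ∫⁻ g, F g ∂μ
      = ∫⁻ g, ∑' γ : Gam, F g * D.indicator (fun _ => (1 : ℝ≥0∞)) (g * (γ : GR)) ∂μ := by
    congr 1
    funext g
    rw [ENNReal.tsum_mul_left, tsum_ind hD, mul_one]
  have hmi : Measurable (D.indicator (fun _ => (1 : ℝ≥0∞))) :=
    measurable_const.indicator hD.1
  have h2 : ∀ γ : Gam, ∫⁻ g, F g * D.indicator (fun _ => (1 : ℝ≥0∞)) (g * (γ : GR)) ∂μ
      = ∫⁻ g in D, F (g * ((γ⁻¹ : Gam) : GR)) ∂μ := by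
    intro γ
    have h3 : ∫⁻ g, F g * D.indicator (fun _ => (1 : ℝ≥0∞)) (g * (γ : GR)) ∂μ
        = ∫⁻ g, F g * D.indicator (fun _ => (1 : ℝ≥0∞)) (g * (γ : GR))
            ∂(μ.map (fun g => g * ((γ⁻¹ : Gam) : GR))) := by
      rw [hG]
    have hmm : Measurable
        (fun g => F g * D.indicator (fun _ => (1 : ℝ≥0∞)) (g * (γ : GR))) :=
      hF.mul (hmi.comp (meas_mulR _))
    rw [h3, lintegral_map hmm (meas_mulR _), ← lintegral_indicator hD.1]
    congr 1
    funext g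
    have : g * ((γ⁻¹ : Gam) : GR) * (γ : GR) = g := by
      rw [mul_assoc]; simp
    rw [this]
    by_cases hg : g ∈ D
    · rw [Set.indicator_of_mem hg, Set.indicator_of_mem hg, mul_one]
    · rw [Set.indicator_of_notMem hg, Set.indicator_of_notMem hg, mul_zero]
  have h4 : ∫⁻ g, F g ∂μ = ∑' γ : Gam, ∫⁻ g in D, F (g * ((γ⁻¹ : Gam) : GR)) ∂μ := by
    rw [h1, lintegral_tsum]
    · simp_rw [h2]
    · intro γ
      have hmm : Measurable
          (fun g => F g * D.indicator (fun _ => (1 : ℝ≥0∞)) (g * (γ : GR))) :=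
        hF.mul (hmi.comp (meas_mulR _))
      exact hmm.aemeasurable
  have h5 : ∫⁻ g in D, ∑' γ : Gam, F (g * (γ : GR)) ∂μ
      = ∑' γ : Gam, ∫⁻ g in D, F (g * (γ : GR)) ∂μ := by
    rw [lintegral_tsum]
    intro γ
    exact (hF.comp (meas_mulR _)).aemeasurable
  rw [h5, h4]
  exact ((Equiv.inv Gam).tsum_eq (fun γ : Gam => ∫⁻ g in D, F (g * (γ : GR)) ∂μ)).symm

/-- iterates of a left translation -/
theorem map_pow {μ : Measure GR} {a : GR} (hA : μ.map (fun g => a * g) = μ) (n : ℕ) :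
    μ.map (fun g => a ^ n * g) = μ := by
  induction n with
  | zero => simp
  | succ n ih =>
    have : (fun g : GR => a ^ (n + 1) * g) = (fun g => a ^ n * g) ∘ (fun g => a * g) := by
      funext g
      simp only [Function.comp]
      rw [pow_succ, mul_assoc]
    rw [this, ← Measure.map_map (meas_mulL _) (meas_mulL _), hA, ih]

theorem lint_SN [Countable Gam] (hUC : T_UC) {D : Set GR} (hD : IsFD D) {μ : Measure GR} (i : Fin 3)
    (hG : ∀ γ : Gam, μ.map (fun g => g * (γ : GR)) = μ)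
    (hA : μ.map (fun g => ai i * g) = μ) (f : C_c(GR, ℝ)) (hf : ∀ g, 0 ≤ f g) (N : ℕ) :
    ∫⁻ g in D, ENNReal.ofReal (SN f i N g) ∂μ ≤ ∫⁻ g, ENNReal.ofReal (f g) ∂μ := by
  rcases Nat.eq_zero_or_pos N with h0 | hN
  · subst h0
    have : ∀ g, SN f i 0 g = 0 := by intro g; simp [SN]
    simp [this]
  obtain ⟨hc, -, hfin, -, -⟩ := hUC f
  have hFm : Measurable (fun g : GR => ENNReal.ofReal (f g)) :=
    (f.continuous.measurable).ennreal_ofReal
  have hper : ∀ g, ENNReal.ofReal (per f g) = ∑' γ : Gam, ENNReal.ofReal (f (g * (γ : GR))) := by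
    intro g
    unfold per
    exact ENNReal.ofReal_tsum_of_nonneg (fun γ => hf _) (summable_of_hasFiniteSupport (hfin g))
  have hpn : ∀ g, 0 ≤ per f g := fun g => tsum_nonneg (fun γ => hf _)
  have h1 : ∀ g, ENNReal.ofReal (SN f i N g)
      = (∑ n ∈ Finset.range N, ENNReal.ofReal (per f (ai i ^ n * g))) * (N : ℝ≥0∞)⁻¹ := by
    intro g
    unfold SN
    rw [ENNReal.ofReal_div_of_pos (by exact_mod_cast hN),
      ENNReal.ofReal_sum_of_nonneg (fun n _ => hpn _), ENNReal.ofReal_natCast, div_eq_mul_inv]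
  have h2 : ∀ n : ℕ, ∫⁻ g in D, ENNReal.ofReal (per f (ai i ^ n * g)) ∂μ
      = ∫⁻ g, ENNReal.ofReal (f g) ∂μ := by
    intro n
    have h3 : ∀ g, ENNReal.ofReal (per f (ai i ^ n * g))
        = ∑' γ : Gam, (fun g => ENNReal.ofReal (f (ai i ^ n * g))) (g * (γ : GR)) := by
      intro g
      rw [hper]
      simp only [mul_assoc]
    simp_rw [h3]
    rw [unfold_lint hD hG (F := fun g => ENNReal.ofReal (f (ai i ^ n * g)))
      (hFm.comp (meas_mulL _))]
    conv_rhs => rw [← map_pow hA n]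
    rw [lintegral_map hFm (meas_mulL _)]
  have hm : ∀ n : ℕ, Measurable (fun g => ENNReal.ofReal (per f (ai i ^ n * g))) := by
    intro n
    exact ((hc.measurable).comp (meas_mulL _)).ennreal_ofReal
  simp_rw [h1]
  rw [lintegral_mul_const _ (Finset.measurable_sum _ (fun n _ => hm n)),
    lintegral_finsetSum _ (fun n _ => hm n)]
  simp_rw [h2]
  rw [Finset.sum_const, Finset.card_range, nsmul_eq_mul, mul_comm (N : ℝ≥0∞), mul_assoc,
    ENNReal.mul_inv_cancel (by exact_mod_cast hN.ne') (ENNReal.natCast_ne_top N), mul_one]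

theorem fatou_bound [Countable Gam] (hUC : T_UC) {D : Set GR} (hD : IsFD D) {μ : Measure GR}
    (i : Fin 3) (hG : ∀ γ : Gam, μ.map (fun g => g * (γ : GR)) = μ)
    (hA : μ.map (fun g => ai i * g) = μ) (f : C_c(GR, ℝ)) (hf : ∀ g, 0 ≤ f g) (κ : ℕ → ℕ)
    (E : Set V3) (c : ℝ)
    (hlim : ∀ g : GR, ent g i ∉ E → Tendsto (fun k => SN f i (κ k) g) atTop (𝓝 c))
    (hE : μ {g | ent g i ∈ E} = 0) :
    ENNReal.ofReal c * μ D ≤ ∫⁻ g, ENNReal.ofReal (f g) ∂μ := by
  obtain ⟨hc, -, -, -, -⟩ := hUC f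
  have hm : ∀ k : ℕ, Measurable (fun g => ENNReal.ofReal (SN f i (κ k) g)) := by
    intro k
    apply Measurable.ennreal_ofReal
    unfold SN
    apply Measurable.div_const
    apply Finset.measurable_sum
    intro n _
    exact (hc.measurable).comp (meas_mulL _)
  have h1 := lintegral_liminf_le (μ := μ.restrict D) (u := atTop) hm
  have h2 : ∫⁻ g in D, liminf (fun k => ENNReal.ofReal (SN f i (κ k) g)) atTop ∂μ
      = ENNReal.ofReal c * μ D := by
    have : ∀ᵐ g ∂(μ.restrict D), liminf (fun k => ENNReal.ofReal (SN f i (κ k) g)) atTop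
        = ENNReal.ofReal c := by
      apply ae_restrict_of_ae
      have h0 : ∀ᵐ g ∂μ, ent g i ∉ E := by
        rw [ae_iff]
        simpa using hE
      filter_upwards [h0] with g hg
      exact ((ENNReal.continuous_ofReal.tendsto c).comp (hlim g hg)).liminf_eq
    rw [lintegral_congr_ae this, lintegral_const, Measure.restrict_apply MeasurableSet.univ,
      Set.univ_inter]
  rw [← h2]
  refine h1.trans ?_
  exact liminf_le_of_frequently_le' (Frequently.of_forall (fun k => lint_SN hUC hD i hG hA f hf (κ k)))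

/-! ### saturated null sets -/

theorem null_pre (N : Set V3) (hN : volume N = 0) (c : ℝ) (hc : c ≠ 0) (g : GR) :
    volume {x : V3 | c • Matrix.vecMul x (g : MR) ∈ N} = 0 := by
  set L : V3 →ₗ[ℝ] V3 := Matrix.toLin' (c • (g : MR).transpose) with hLdef
  have hL : ∀ x, L x = c • Matrix.vecMul x (g : MR) := by
    intro x
    rw [hLdef, Matrix.toLin'_apply, Matrix.smul_mulVec, Matrix.mulVec_transpose]
  have hd : LinearMap.det L ≠ 0 := by
    rw [hLdef, LinearMap.det_toLin', Matrix.det_smul, Matrix.det_transpose]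
    apply mul_ne_zero (pow_ne_zero _ hc)
    exact ((Matrix.isUnit_iff_isUnit_det _).1 g.isUnit).ne_zero
  have h := Measure.addHaar_preimage_linearMap volume hd N
  rw [hN, mul_zero] at h
  have he : {x : V3 | c • Matrix.vecMul x (g : MR) ∈ N} = L ⁻¹' N := by
    ext x
    simp [hL]
  rw [he, h]

theorem ent_mul (g h : GR) (i : Fin 3) : ent (g * h) i = Matrix.vecMul (ent g i) (h : MR) := by
  funext j
  simp [ent, Matrix.mul_apply, Matrix.vecMul, dotProduct]

theorem ent_ai (k i : Fin 3) (g : GR) :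
    ent (ai k * g) i = (if i = k then (3 : ℝ) else 1) • ent g i := by
  funext j
  unfold ent ai
  rw [dg_mul_apply]
  by_cases h : i = k
  · subst h
    simp [Real.exp_log (show (0 : ℝ) < 3 by norm_num)]
  · simp [h]

/-- saturation of a set of rows -/
def sat (N : Set V3) : Set V3 :=
  {x | ∃ (n : ℤ) (γ : Gam), ((3 : ℝ) ^ n) • Matrix.vecMul x ((γ : GR) : MR) ∈ N}

theorem sat_eq (N : Set V3) : sat N
    = ⋃ n : ℤ, ⋃ γ : Gam, {x : V3 | ((3 : ℝ) ^ n) • Matrix.vecMul x ((γ : GR) : MR) ∈ N} := by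
  ext x
  simp [sat]

theorem sat_null [Countable Gam] (N : Set V3) (hN : volume N = 0) : volume (sat N) = 0 := by
  rw [sat_eq, measure_iUnion_null_iff]
  intro n
  rw [measure_iUnion_null_iff]
  intro γ
  exact null_pre N hN _ (zpow_ne_zero _ (by norm_num)) _

theorem sat_meas [Countable Gam] (N : Set V3) (hN : MeasurableSet N) : MeasurableSet (sat N) := by
  rw [sat_eq]
  refine MeasurableSet.iUnion (fun n => MeasurableSet.iUnion (fun γ => ?_))
  have hc : Continuous (fun x : V3 => ((3 : ℝ) ^ n) • Matrix.vecMul x ((γ : GR) : MR)) := by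
    have h0 : Continuous (fun x : V3 => Matrix.vecMul x ((γ : GR) : MR)) :=
      Continuous.matrix_vecMul continuous_id continuous_const
    exact h0.const_smul ((3 : ℝ) ^ n)
  exact hc.measurable hN

theorem subset_sat (N : Set V3) : N ⊆ sat N := by
  intro x hx
  refine ⟨0, 1, ?_⟩
  simpa using hx

theorem sat_smul (N : Set V3) (x : V3) : (3 : ℝ) • x ∈ sat N ↔ x ∈ sat N := by
  constructor
  · rintro ⟨n, γ, h⟩
    refine ⟨n + 1, γ, ?_⟩
    rw [Matrix.smul_vecMul, smul_smul, ← zpow_add_one₀ (by norm_num)] at h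
    exact h
  · rintro ⟨n, γ, h⟩
    refine ⟨n - 1, γ, ?_⟩
    rw [Matrix.smul_vecMul, smul_smul, ← zpow_add_one₀ (by norm_num), sub_add_cancel]
    exact h

theorem sat_mul (N : Set V3) (x : V3) (γ : Gam) :
    Matrix.vecMul x ((γ : GR) : MR) ∈ sat N ↔ x ∈ sat N := by
  constructor
  · rintro ⟨n, δ, h⟩
    refine ⟨n, γ * δ, ?_⟩
    rw [Matrix.vecMul_vecMul] at h
    simpa using h
  · rintro ⟨n, δ, h⟩
    refine ⟨n, γ⁻¹ * δ, ?_⟩
    rw [Matrix.vecMul_vecMul]
    have : ((γ : GR) : MR) * (((γ⁻¹ * δ : Gam) : GR) : MR) = ((δ : GR) : MR) := by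
      rw [← Units.val_mul]
      congr 1
      simp
    rw [this]
    exact h

/-- the set of group elements whose `i`-th row is in `sat N` -/
def BB (i : Fin 3) (N : Set V3) : Set GR := {g | ent g i ∈ sat N}

theorem BB_meas [Countable Gam] (i : Fin 3) (N : Set V3) (hN : MeasurableSet N) :
    MeasurableSet (BB i N) := by
  have hc : Continuous (fun g : GR => ent g i) :=
    (continuous_apply i).comp isOpenEmbedding_ent.continuous
  exact hc.measurable (sat_meas N hN)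

theorem BB_ai (i k : Fin 3) (N : Set V3) (g : GR) : ai k * g ∈ BB i N ↔ g ∈ BB i N := by
  unfold BB
  simp only [Set.mem_ofPred_eq]
  rw [ent_ai]
  by_cases h : i = k
  · rw [if_pos h]; exact sat_smul N _
  · rw [if_neg h, one_smul]

theorem BB_gam (i : Fin 3) (N : Set V3) (g : GR) (γ : Gam) :
    g * (γ : GR) ∈ BB i N ↔ g ∈ BB i N := by
  unfold BB
  simp only [Set.mem_ofPred_eq]
  rw [ent_mul]
  exact sat_mul N _ γ

theorem map_restrict {μ : Measure GR} {T : GR → GR} (hT : Measurable T) (hm : μ.map T = μ)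
    {B : Set GR} (hB : MeasurableSet B) (hi : ∀ g, T g ∈ B ↔ g ∈ B) :
    (μ.restrict B).map T = μ.restrict B := by
  have h1 : T ⁻¹' B = B := by
    ext g; exact hi g
  have h2 := Measure.restrict_map (μ := μ) hT hB
  rw [h1, hm] at h2
  exact h2.symm

theorem piece [Countable Gam] (hUC : T_UC) {D : Set GR} (hD : IsFD D) {ρ : Measure GR}
    (hG : ∀ γ : Gam, ρ.map (fun g => g * (γ : GR)) = ρ)
    (hA : ∀ i, ρ.map (fun g => ai i * g) = ρ)
    (i : Fin 3) (S : Set GR) (hS : MeasurableSet S)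
    (hSG : ∀ (g : GR) (γ : Gam), g * (γ : GR) ∈ S ↔ g ∈ S)
    (hSA : ∀ g : GR, ai i * g ∈ S ↔ g ∈ S)
    (f : C_c(GR, ℝ)) (hf : ∀ g, 0 ≤ f g) (κ : ℕ → ℕ) (E : Set V3) (c : ℝ)
    (hlim : ∀ g : GR, ent g i ∉ E → Tendsto (fun k => SN f i (κ k) g) atTop (𝓝 c))
    (hE : ∀ g ∈ S, ent g i ∉ E) :
    ENNReal.ofReal c * ρ (D ∩ S) ≤ ∫⁻ g in S, ENNReal.ofReal (f g) ∂ρ := by
  have h := fatou_bound (μ := ρ.restrict S) hUC hD i
    (fun γ => map_restrict (meas_mulR _) (hG γ) hS (fun g => hSG g γ))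
    (map_restrict (meas_mulL _) (hA i) hS hSA) f hf κ E c hlim (by
      have h0 : ∀ᵐ g ∂(ρ.restrict S), ¬ (ent g i ∈ E) := by
        filter_upwards [ae_restrict_mem hS] with g hg using hE g hg
      rw [ae_iff] at h0
      simpa only [not_not] using h0)
  rwa [Measure.restrict_apply hD.1] at h

theorem key (hGOOD : T_GOOD) (hUC : T_UC) [Countable Gam] {D : Set GR} (hD : IsFD D)
    (hfin : haarG D < ∞) {ρ : Measure GR}
    (hG : ∀ γ : Gam, ρ.map (fun g => g * (γ : GR)) = ρ)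
    (hA : ∀ i, ρ.map (fun g => ai i * g) = ρ)
    (hnull : ∀ E : Set V3, volume E = 0 → ρ {g : GR | ∀ i, ent g i ∈ E} = 0)
    (f : C_c(GR, ℝ)) (hf : ∀ g, 0 ≤ f g) :
    ENNReal.ofReal ((∫ x, f x ∂haarG) / (haarG D).toReal) * ρ D
      ≤ ∫⁻ g, ENNReal.ofReal (f g) ∂ρ := by
  choose κ E hκ hE hlim using fun i => hGOOD D hD hfin i f
  set c : ℝ := (∫ x, f x ∂haarG) / (haarG D).toReal with hc
  set N : Fin 3 → Set V3 := fun i => toMeasurable volume (E i) with hN
  have hNm : ∀ i, MeasurableSet (N i) := fun i => measurableSet_toMeasurable _ _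
  have hN0 : ∀ i, volume (N i) = 0 := fun i => by rw [hN]; simp only [measure_toMeasurable, hE i]
  set B : Fin 3 → Set GR := fun i => BB i (N i) with hB
  have hBm : ∀ i, MeasurableSet (B i) := fun i => BB_meas i _ (hNm i)
  have hBG : ∀ (i : Fin 3) (g : GR) (γ : Gam), g * (γ : GR) ∈ B i ↔ g ∈ B i :=
    fun i g γ => BB_gam i _ g γ
  have hBA : ∀ (i k : Fin 3) (g : GR), ai k * g ∈ B i ↔ g ∈ B i := fun i k g => BB_ai i k _ g
  have hBE : ∀ (i : Fin 3) (g : GR), g ∉ B i → ent g i ∉ E i := by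
    intro i g hg hgE
    exact hg (subset_sat _ (subset_toMeasurable _ _ hgE))
  have h0 := piece hUC hD hG hA 0 (B 0)ᶜ (hBm 0).compl
    (fun g γ => by simp only [Set.mem_compl_iff, hBG])
    (fun g => by simp only [Set.mem_compl_iff, hBA]) f hf (κ 0) (E 0) c (hlim 0)
    (fun g hg => hBE 0 g hg)
  have h1 := piece hUC hD hG hA 1 (B 0 ∩ (B 1)ᶜ) ((hBm 0).inter (hBm 1).compl)
    (fun g γ => by simp only [Set.mem_inter_iff, Set.mem_compl_iff, hBG])
    (fun g => by simp only [Set.mem_inter_iff, Set.mem_compl_iff, hBA]) f hf (κ 1) (E 1) c (hlim 1)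
    (fun g hg => hBE 1 g hg.2)
  have h2 := piece hUC hD hG hA 2 (B 0 ∩ B 1 ∩ (B 2)ᶜ)
    (((hBm 0).inter (hBm 1)).inter (hBm 2).compl)
    (fun g γ => by simp only [Set.mem_inter_iff, Set.mem_compl_iff, hBG])
    (fun g => by simp only [Set.mem_inter_iff, Set.mem_compl_iff, hBA]) f hf (κ 2) (E 2) c (hlim 2)
    (fun g hg => hBE 2 g hg.2)
  have h3 : ρ (B 0 ∩ B 1 ∩ B 2) = 0 := by
    have hu : volume (⋃ i, sat (N i)) = 0 := by
      rw [measure_iUnion_null_iff]
      intro i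
      exact sat_null _ (hN0 i)
    refine measure_mono_null ?_ (hnull _ hu)
    intro g hg i
    apply Set.mem_iUnion.2
    refine ⟨i, ?_⟩
    fin_cases i
    · exact hg.1.1
    · exact hg.1.2
    · exact hg.2
  have h4 : ρ D ≤ ρ (D ∩ (B 0)ᶜ) + ρ (D ∩ (B 0 ∩ (B 1)ᶜ)) + ρ (D ∩ (B 0 ∩ B 1 ∩ (B 2)ᶜ)) := by
    have hsub : D ⊆ ((D ∩ (B 0)ᶜ) ∪ (D ∩ (B 0 ∩ (B 1)ᶜ)) ∪ (D ∩ (B 0 ∩ B 1 ∩ (B 2)ᶜ)))
        ∪ (B 0 ∩ B 1 ∩ B 2) := by
      intro g hg
      by_cases a0 : g ∈ B 0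
      · by_cases a1 : g ∈ B 1
        · by_cases a2 : g ∈ B 2
          · exact Or.inr ⟨⟨a0, a1⟩, a2⟩
          · exact Or.inl (Or.inr ⟨hg, ⟨a0, a1⟩, a2⟩)
        · exact Or.inl (Or.inl (Or.inr ⟨hg, a0, a1⟩))
      · exact Or.inl (Or.inl (Or.inl ⟨hg, a0⟩))
    calc ρ D ≤ _ := measure_mono hsub
      _ ≤ ρ ((D ∩ (B 0)ᶜ) ∪ (D ∩ (B 0 ∩ (B 1)ᶜ)) ∪ (D ∩ (B 0 ∩ B 1 ∩ (B 2)ᶜ)))
          + ρ (B 0 ∩ B 1 ∩ B 2) := measure_union_le _ _
      _ = ρ ((D ∩ (B 0)ᶜ) ∪ (D ∩ (B 0 ∩ (B 1)ᶜ)) ∪ (D ∩ (B 0 ∩ B 1 ∩ (B 2)ᶜ))) := by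
          rw [h3, add_zero]
      _ ≤ ρ ((D ∩ (B 0)ᶜ) ∪ (D ∩ (B 0 ∩ (B 1)ᶜ))) + ρ (D ∩ (B 0 ∩ B 1 ∩ (B 2)ᶜ)) :=
          measure_union_le _ _
      _ ≤ _ := by gcongr; exact measure_union_le _ _
  have h5 : (∫⁻ g in (B 0)ᶜ, ENNReal.ofReal (f g) ∂ρ)
      + (∫⁻ g in B 0 ∩ (B 1)ᶜ, ENNReal.ofReal (f g) ∂ρ)
      + (∫⁻ g in B 0 ∩ B 1 ∩ (B 2)ᶜ, ENNReal.ofReal (f g) ∂ρ)
      ≤ ∫⁻ g, ENNReal.ofReal (f g) ∂ρ := by
    rw [← lintegral_union ((hBm 0).inter (hBm 1).compl), ← lintegral_union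
      (((hBm 0).inter (hBm 1)).inter (hBm 2).compl)]
    · exact setLIntegral_le_lintegral _ _
    · rw [Set.disjoint_left]
      rintro g (hg | hg) hg2
      · exact hg hg2.1.1
      · exact hg.2 hg2.1.2
    · rw [Set.disjoint_left]
      rintro g hg hg2
      exact hg hg2.1
  calc ENNReal.ofReal c * ρ D
      ≤ ENNReal.ofReal c * (ρ (D ∩ (B 0)ᶜ) + ρ (D ∩ (B 0 ∩ (B 1)ᶜ))
          + ρ (D ∩ (B 0 ∩ B 1 ∩ (B 2)ᶜ))) := by gcongr
    _ = ENNReal.ofReal c * ρ (D ∩ (B 0)ᶜ) + ENNReal.ofReal c * ρ (D ∩ (B 0 ∩ (B 1)ᶜ))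
          + ENNReal.ofReal c * ρ (D ∩ (B 0 ∩ B 1 ∩ (B 2)ᶜ)) := by rw [mul_add, mul_add]
    _ ≤ _ := by gcongr
    _ ≤ _ := h5

theorem haar_le_of_cover [Countable Gam] {D : Set GR} (hD : IsFD D)
    (hG : ∀ γ : Gam, haarG.map (fun g => g * (γ : GR)) = haarG) {D' : Set GR}
    (hm : MeasurableSet D') (hcov : ∀ g : GR, ∃ γ ∈ Gam, g * γ ∈ D') : haarG D ≤ haarG D' := by
  have hF : Measurable (D'.indicator (fun _ => (1 : ℝ≥0∞))) := measurable_const.indicator hm
  have h1 := unfold_lint hD hG hF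
  have h2 : ∫⁻ g, D'.indicator (fun _ => (1 : ℝ≥0∞)) g ∂haarG = haarG D' := by
    rw [lintegral_indicator hm]; simp
  rw [← h2, ← h1]
  calc haarG D = ∫⁻ _ in D, 1 ∂haarG := by simp
    _ ≤ _ := by
      apply lintegral_mono
      intro g
      obtain ⟨γ, hγ, h⟩ := hcov g
      refine le_trans ?_ (ENNReal.le_tsum (⟨γ, hγ⟩ : Gam))
      simp only
      rw [Set.indicator_of_mem h]

theorem haar_D_ne_zero [Countable Gam] {D : Set GR} (hD : IsFD D)
    (hG : ∀ γ : Gam, haarG.map (fun g => g * (γ : GR)) = haarG) (hne : haarG Set.univ ≠ 0) :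
    haarG D ≠ 0 := by
  intro h0
  apply hne
  have h1 := unfold_lint hD hG (F := fun _ => 1) measurable_const
  rw [lintegral_one] at h1
  rw [← h1]
  exact setLIntegral_measure_zero _ _ h0

theorem hopf (hGOOD : T_GOOD) (hUC : T_UC) (hFD : T_FD) (hCOV : T_COV) (hHAAR : T_HAAR)
    (hDISC : T_DISC) : T_HOPF := by
  intro ρ hloc hl hr hnull
  obtain ⟨-, hcount, -⟩ := hDISC
  obtain ⟨hHL, hHR, hHH⟩ := hHAAR
  obtain ⟨D, hD⟩ := hFD
  obtain ⟨D', hD'm, hD'fin, hD'cov⟩ := hCOV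
  have hG : ∀ γ : Gam, ρ.map (fun g => g * (γ : GR)) = ρ := rinv hl hr
  have hA : ∀ i, ρ.map (fun g => ai i * g) = ρ := fun i => hl _
  have hHG : ∀ γ : Gam, haarG.map (fun g => g * (γ : GR)) = haarG :=
    fun γ => map_mul_right_eq_self haarG (γ : GR)
  have hfin : haarG D < ∞ := (haar_le_of_cover hD hHG hD'm hD'cov).trans_lt hD'fin
  have hne : haarG D ≠ 0 := by
    apply haar_D_ne_zero hD hHG
    exact (isOpen_univ.measure_pos haarG Set.univ_nonempty).ne'
  have hKey := fun f hf => key hGOOD hUC hD hfin hG hA hnull f hf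
  -- functions
  have hfun : ∀ (K U : Set GR), IsCompact K → IsOpen U → K ⊆ U → ∃ f : C_c(GR, ℝ),
      (∀ g, 0 ≤ f g) ∧ (∀ g ∈ K, f g = 1) ∧ (∀ g, g ∉ U → f g = 0) ∧ ∀ g, f g ≤ 1 := by
    intro K U hK hU hKU
    obtain ⟨f, h1, h2, h3, h4⟩ := exists_continuous_one_zero_of_isCompact hK hU.isClosed_compl
      (Set.disjoint_compl_right_iff_subset.2 hKU)
    exact ⟨⟨f, h3⟩, fun g => (h4 g).1, fun g hg => h1 hg, fun g hg => h2 hg, fun g => (h4 g).2⟩
  have hint : ∀ f : C_c(GR, ℝ), Integrable f haarG := fun f =>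
    f.continuous.integrable_of_hasCompactSupport f.hasCompactSupport
  have hintρ : ∀ f : C_c(GR, ℝ), Integrable f ρ := fun f =>
    f.continuous.integrable_of_hasCompactSupport f.hasCompactSupport
  have hDt : (haarG D).toReal ≠ 0 := by
    rw [ENNReal.toReal_ne_zero]; exact ⟨hne, hfin.ne⟩
  have hDpos : 0 < (haarG D).toReal := lt_of_le_of_ne ENNReal.toReal_nonneg (Ne.symm hDt)
  have hρD : ρ D < ∞ := by
    obtain ⟨f, hf0, hf1, -, -⟩ := hfun {1} Set.univ isCompact_singleton isOpen_univ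
      (Set.subset_univ _)
    have h1 := hKey f hf0
    have h2 : 0 < ∫ x, f x ∂haarG := by
      refine Continuous.integral_pos_of_hasCompactSupport_nonneg_nonzero (x := 1) f.continuous
        f.hasCompactSupport (fun g => hf0 g) ?_
      rw [hf1 1 rfl]; exact one_ne_zero
    have h3 : (∫⁻ g, ENNReal.ofReal (f g) ∂ρ) < ∞ := (hintρ f).lintegral_lt_top
    have h4 := h1.trans_lt h3
    by_contra h5
    have h6 : ρ D = ∞ := by
      rwa [lt_top_iff_ne_top, not_not] at h5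
    rw [h6, ENNReal.mul_top] at h4
    · exact absurd h4 (lt_irrefl _)
    · rw [ne_eq, ENNReal.ofReal_eq_zero, not_le]
      exact div_pos h2 hDpos
  set κ : NNReal := (ρ D).toNNReal / (haarG D).toNNReal with hκ
  have hκD : (κ : ℝ≥0∞) * haarG D = ρ D := by
    rw [hκ, ENNReal.coe_div, ENNReal.coe_toNNReal hρD.ne, ENNReal.coe_toNNReal hfin.ne,
      ENNReal.div_mul_cancel hne hfin.ne]
    rw [ne_eq, ENNReal.toNNReal_eq_zero_iff]
    rintro (h | h)
    · exact hne h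
    · exact hfin.ne h
  have hκf : ∀ f : C_c(GR, ℝ), (∀ g, 0 ≤ f g) →
      (κ : ℝ≥0∞) * ∫⁻ g, ENNReal.ofReal (f g) ∂haarG ≤ ∫⁻ g, ENNReal.ofReal (f g) ∂ρ := by
    intro f hf
    refine le_trans (le_of_eq ?_) (hKey f hf)
    rw [← hκD, ENNReal.ofReal_div_of_pos hDpos,
      ofReal_integral_eq_lintegral_ofReal (hint f) (Eventually.of_forall hf),
      ENNReal.ofReal_toReal hfin.ne, mul_comm (κ : ℝ≥0∞) (haarG D), ← mul_assoc,
      ENNReal.div_mul_cancel hne hfin.ne, mul_comm]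
  have hle : κ • haarG ≤ ρ := by
    have hopen : ∀ U : Set GR, IsOpen U → (κ : ℝ≥0∞) * haarG U ≤ ρ U := by
      intro U hU
      rw [hU.measure_eq_iSup_isCompact, ENNReal.mul_iSup]
      refine iSup_le (fun K => ?_)
      rw [ENNReal.mul_iSup]
      refine iSup_le (fun hKU => ?_)
      rw [ENNReal.mul_iSup]
      refine iSup_le (fun hK => ?_)
      obtain ⟨f, hf0, hf1, hfU, hfle⟩ := hfun K U hK hU hKU
      calc (κ : ℝ≥0∞) * haarG K ≤ (κ : ℝ≥0∞) * ∫⁻ g, ENNReal.ofReal (f g) ∂haarG := by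
            gcongr
            rw [← lintegral_indicator_one hK.measurableSet]
            apply lintegral_mono
            intro g
            by_cases hg : g ∈ K
            · simp [Set.indicator_of_mem hg, hf1 g hg]
            · simp [Set.indicator_of_notMem hg]
        _ ≤ ∫⁻ g, ENNReal.ofReal (f g) ∂ρ := hκf f hf0
        _ ≤ ∫⁻ g, U.indicator 1 g ∂ρ := by
            apply lintegral_mono
            intro g
            by_cases hg : g ∈ U
            · rw [Set.indicator_of_mem hg]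
              simpa using hfle g
            · simp [Set.indicator_of_notMem hg, hfU g hg]
        _ = ρ U := lintegral_indicator_one hU.measurableSet
    refine Measure.le_iff.2 (fun A hAm => ?_)
    rw [A.measure_eq_iInf_isOpen (μ := ρ)]
    refine le_iInf (fun U => le_iInf (fun hAU => le_iInf (fun hU => ?_)))
    calc (κ • haarG) A ≤ (κ • haarG) U := measure_mono hAU
      _ = (κ : ℝ≥0∞) * haarG U := rfl
      _ ≤ ρ U := hopen U hU
  have hres : (κ • haarG).restrict D = ρ.restrict D := by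
    have : IsFiniteMeasure ((κ • haarG).restrict D) := by
      constructor
      rw [Measure.restrict_apply MeasurableSet.univ, Set.univ_inter]
      show (κ : ℝ≥0∞) * haarG D < ∞
      rw [hκD]; exact hρD
    apply Measure.eq_of_le_of_measure_univ_eq
    · exact Measure.restrict_mono' (Filter.EventuallyLE.refl _ _) hle
    · rw [Measure.restrict_apply MeasurableSet.univ, Measure.restrict_apply MeasurableSet.univ,
        Set.univ_inter]
      exact hκD
  refine ⟨κ, ?_⟩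
  have hκG : ∀ γ : Gam, (κ • haarG).map (fun g => g * (γ : GR)) = κ • haarG := by
    intro γ
    rw [Measure.map_smul, hHG]
  ext A hAm
  have hF : Measurable (A.indicator (fun _ => (1 : ℝ≥0∞))) := measurable_const.indicator hAm
  have h1 := unfold_lint hD hG hF
  have h2 := unfold_lint hD hκG hF
  rw [hres, h1] at h2
  have h3 : ∀ μ : Measure GR, ∫⁻ g, A.indicator (fun _ => (1 : ℝ≥0∞)) g ∂μ = μ A := by
    intro μ
    rw [lintegral_indicator hAm]; simp
  rw [h3, h3] at h2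
  exact h2

end KF48
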