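import Mathlib
import Pool.Agent.H22.KF.Targets
import Pool.Agent.H48.KF.BULK

/-!
# MP_3fd637_nt, module S5b : frames whose three lines meet a small union of cubes (helper48)
-/

open MeasureTheory Filter Topology
open scoped ENNReal

namespace KF48B

open KF

/-- the union of the cubes -/
def OO (Q : Finset V3) (s : ℝ) : Set V3 := ⋃ q ∈ Q, Metric.ball q s

theorem theta_union_le (Q : Finset V3) (s : ℝ) (x : VZ) :
    theta (OO Q s) x ≤ ∑ q ∈ Q, theta (Metric.ball q s) x := by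
  unfold theta OO
  refine le_trans (measure_mono ?_) (measure_biUnion_finset_le Q
    (fun q => {t : ℝ | (fun j => Real.exp t * (x j : ℝ)) ∈ Metric.ball q s}))
  intro t ht
  simpa using ht

theorem theta_le {O : Set V3} {r R : ℝ} (hr : 0 < r) (hrR : r ≤ R)
    (hO : ∀ y ∈ O, r / 2 ≤ ‖y‖ ∧ ‖y‖ ≤ 2 * R) (x : VZ) :
    theta O x ≤ ENNReal.ofReal (Real.log (4 * R / r)) := by
  set y : V3 := fun j => (x j : ℝ) with hy
  have hn : ∀ t : ℝ, ‖(fun j => Real.exp t * (x j : ℝ) : V3)‖ = Real.exp t * ‖y‖ := by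
    intro t
    have h1 : (fun j => Real.exp t * (x j : ℝ) : V3) = Real.exp t • y := by
      funext j; simp [hy]
    rw [h1, norm_smul, Real.norm_eq_abs, abs_of_pos (Real.exp_pos t)]
  by_cases hx : y = 0
  · have h1 : {t : ℝ | (fun j => Real.exp t * (x j : ℝ)) ∈ O} = ∅ := by
      apply Set.eq_empty_iff_forall_notMem.2
      intro t ht
      have h2 := (hO _ ht).1
      rw [hn, hx, norm_zero, mul_zero] at h2
      linarith
    unfold theta
    rw [h1]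
    simp
  · have hyp : 0 < ‖y‖ := norm_pos_iff.2 hx
    have h1 : {t : ℝ | (fun j => Real.exp t * (x j : ℝ)) ∈ O} ⊆
        Set.Icc (Real.log (r / 2) - Real.log ‖y‖) (Real.log (2 * R) - Real.log ‖y‖) := by
      intro t ht
      obtain ⟨h2, h3⟩ := hO _ ht
      rw [hn] at h2 h3
      have h4 : Real.log (Real.exp t * ‖y‖) = t + Real.log ‖y‖ := by
        rw [Real.log_mul (Real.exp_pos t).ne' hyp.ne', Real.log_exp]
      have h5 := Real.log_le_log (by positivity) h2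
      have h6 := Real.log_le_log (by positivity) h3
      rw [h4] at h5 h6
      constructor <;> linarith
    unfold theta
    refine (measure_mono h1).trans ?_
    rw [Real.volume_Icc]
    apply ENNReal.ofReal_le_ofReal
    have h7 : 4 * R / r = (2 * R) / (r / 2) := by field_simp; ring
    have h8 : Real.log (2 * R / (r / 2)) = Real.log (2 * R) - Real.log (r / 2) :=
      Real.log_div (by linarith) (by linarith)
    rw [h7, h8]
    linarith

theorem perm_inj (σ : Equiv.Perm (Fin 3)) : Function.Injective (Frame.perm σ) := by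
  rintro ⟨M, e, v, h1, h2, h3⟩ ⟨M', e', v', h1', h2', h3'⟩ h
  simp only [Frame.perm, Frame.mk.injEq] at h
  obtain ⟨a, b, d⟩ := h
  have hb : e = e' := by
    funext i
    have := congrFun b (σ.symm i)
    simpa using this
  have hd : v = v' := by
    funext i
    have := congrFun d (σ.symm i)
    simpa using this
  subst a hb hd
  rfl

theorem perm_Ang (σ : Equiv.Perm (Fin 3)) {φ : Frame} {c : ℝ} (h : φ.Ang c) :
    (φ.perm σ).Ang c := by
  unfold Frame.Ang at h ⊢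
  have h1 : (φ.perm σ).Rm = φ.Rm.submatrix σ id := rfl
  have h2 : |Matrix.det (φ.perm σ).Rm| = |Matrix.det φ.Rm| := by
    rw [h1, Matrix.det_permute, abs_mul]
    rcases Int.units_eq_one_or (Equiv.Perm.sign σ) with hs | hs <;> rw [hs] <;> simp
  have h3 : nz ((φ.perm σ).v 0) * nz ((φ.perm σ).v 1) * nz ((φ.perm σ).v 2) =
      nz (φ.v 0) * nz (φ.v 1) * nz (φ.v 2) := by
    have h4 := Equiv.prod_comp σ (fun i => nz (φ.v i))
    rw [Fin.prod_univ_three, Fin.prod_univ_three] at h4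
    exact h4
  rw [h2, h3]
  exact h

theorem perm_EvLe (σ : Equiv.Perm (Fin 3)) {φ : Frame} {m : ℕ} (h : φ.EvLe m) :
    (φ.perm σ).EvLe m := fun i => h (σ i)

/-- balanced heights -/
def Bal (C0 : ℝ) (m : ℕ) (φ : Frame) : Prop :=
  nz (φ.v 0) ^ 2 ≤ C0 * m * nz φ.w ∧ nz φ.w ^ 2 ≤ C0 * m * nz (φ.v 0)

/-- sums over sets of good frames -/
theorem lemA (hW0 : T_W0) (hSTRIP : T_STRIP) (hBULK : T_BULK) (hCQ : T_CQ) (c C0 r R η : ℝ)
    (hc : 0 < c) (hC0 : 0 < C0) (hr : 0 < r) (hrR : r ≤ R) (hη : 0 < η) :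
    ∃ δ s0 : ℝ, 0 < δ ∧ 0 < s0 ∧ s0 ≤ r / 8 ∧
    ∀ (s : ℝ) (Q : Finset V3), 0 < s → s ≤ s0 → (∀ q ∈ Q, r ≤ ‖q‖ ∧ ‖q‖ ≤ R) →
      (Q.card : ℝ) * s ^ 3 ≤ δ →
      ∀ᶠ m : ℕ in atTop, ∀ S : Finset Frame, (∀ φ ∈ S, φ.Ang c ∧ φ.EvLe m ∧ Bal C0 m φ) →
        ∑ φ ∈ S, (theta (OO Q s) (φ.v 0)).toReal ≤ η * (m : ℝ) ^ 6 * Real.log m ^ 2 := by
  classical
  set Θ : ℝ := Real.log (4 * R / r) with hΘ
  have hΘpos : 0 < Θ := by
    apply Real.log_pos
    rw [lt_div_iff₀ hr]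
    linarith
  obtain ⟨CB, hCB⟩ := hBULK c C0 hc hC0
  obtain ⟨C, hC⟩ := hCQ r R hr hrR
  set A : ℝ := |CB| + 1 with hA
  have hApos : 0 < A := by positivity
  set C1 : ℝ := |C| + 1 with hC1
  have hC1pos : 0 < C1 := by positivity
  refine ⟨(η / (2 * A)) ^ 2 / (8 * Θ * C1), r / 8, by positivity, by positivity, le_rfl, ?_⟩
  intro s Q hs hs0 hQ hQs
  set δ : ℝ := (η / (2 * A)) ^ 2 / (8 * Θ * C1) with hδ
  obtain ⟨C', hC'⟩ := hC s hs (by linarith)
  -- O is in an annulus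
  have hO : ∀ y ∈ OO Q s, r / 2 ≤ ‖y‖ ∧ ‖y‖ ≤ 2 * R := by
    intro y hy
    simp only [OO, Set.mem_iUnion, exists_prop] at hy
    obtain ⟨q, hq, hy⟩ := hy
    rw [Metric.mem_ball, dist_eq_norm] at hy
    obtain ⟨h1, h2⟩ := hQ q hq
    have h3 : ‖q‖ ≤ ‖y‖ + ‖y - q‖ := by
      have := norm_sub_le y (y - q)
      simpa using this
    have h4 : ‖y‖ ≤ ‖q‖ + ‖y - q‖ := by
      have := norm_add_le q (y - q)
      simpa using this
    constructor <;> linarith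
  set θ : VZ → ℝ := fun x => (theta (OO Q s) x).toReal with hθ
  have hθ0 : ∀ x, 0 ≤ θ x := fun x => ENNReal.toReal_nonneg
  have hθΘ : ∀ x, θ x ≤ Θ := by
    intro x
    have h1 := theta_le hr hrR hO x
    have h2 := ENNReal.toReal_mono ENNReal.ofReal_ne_top h1
    rwa [ENNReal.toReal_ofReal hΘpos.le] at h2
  have hfin : ∀ q ∈ Q, ∀ x : VZ, theta (Metric.ball q s) x ≠ ∞ := by
    intro q hq x
    apply ne_top_of_le_ne_top (ENNReal.ofReal_ne_top (r := Real.log (4 * R / r)))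
    apply theta_le hr hrR _ x
    intro y hy
    apply hO
    simp only [OO, Set.mem_iUnion, exists_prop]
    exact ⟨q, hq, hy⟩
  have hθsum : ∀ x, θ x ≤ ∑ q ∈ Q, (theta (Metric.ball q s) x).toReal := by
    intro x
    have h1 := theta_union_le Q s x
    have h2 : ∑ q ∈ Q, theta (Metric.ball q s) x ≠ ∞ := by
      rw [ENNReal.sum_ne_top]
      intro q hq
      exact hfin q hq x
    have h3 := ENNReal.toReal_mono h2 h1
    rwa [ENNReal.toReal_sum (fun q hq => hfin q hq x)] at h3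
  -- the strip
  have hst := hSTRIP c C0 (η / (2 * Θ)) hc hC0 (by positivity)
  -- the large m
  have hlog : Tendsto (fun m : ℕ => Real.log m) atTop atTop :=
    Real.tendsto_log_atTop.comp tendsto_natCast_atTop_atTop
  have hbig := hlog.eventually_ge_atTop ((Q.card : ℝ) * |C'| / (2 * C1 * δ))
  have hδpos : 0 < δ := by rw [hδ]; positivity
  filter_upwards [hst, hbig, eventually_ge_atTop 2,
    (tendsto_natCast_atTop_atTop (R := ℝ)).eventually_ge_atTop (C0 + 1)] with m hm1 hm2 hm3 hm4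
  intro S hS
  have hm0 : (2 : ℝ) ≤ m := by exact_mod_cast hm3
  have hlm0 : 0 < Real.log m := Real.log_pos (by linarith)
  set Sb := S.filter (fun φ => nz (φ.v 0) * nz φ.w * Real.log m ≤ (m : ℝ) ^ 2) with hSb
  set Ss := S.filter (fun φ => ¬ nz (φ.v 0) * nz φ.w * Real.log m ≤ (m : ℝ) ^ 2) with hSs
  have hsplit : ∑ φ ∈ S, θ (φ.v 0) = ∑ φ ∈ Sb, θ (φ.v 0) + ∑ φ ∈ Ss, θ (φ.v 0) :=
    (Finset.sum_filter_add_sum_filter_not S _ _).symm
  have hstrip : ∑ φ ∈ Ss, θ (φ.v 0) ≤ η / 2 * (m : ℝ) ^ 6 * Real.log m ^ 2 := by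
    have h1 : ∑ φ ∈ Ss, θ (φ.v 0) ≤ Ss.card * Θ := by
      have := Finset.sum_le_card_nsmul Ss (fun φ => θ (φ.v 0)) Θ (fun φ _ => hθΘ _)
      simpa using this
    have h2 := hm1 Ss (by
      intro φ hφ
      rw [hSs, Finset.mem_filter, not_le] at hφ
      obtain ⟨a1, a2, a3, a4⟩ := hS φ hφ.1
      exact ⟨a1, a2, a3, a4, hφ.2⟩)
    calc ∑ φ ∈ Ss, θ (φ.v 0) ≤ Ss.card * Θ := h1
      _ ≤ (η / (2 * Θ) * (m : ℝ) ^ 6 * Real.log m ^ 2) * Θ :=
          mul_le_mul_of_nonneg_right h2 hΘpos.le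
      _ = η / 2 * (m : ℝ) ^ 6 * Real.log m ^ 2 := by field_simp
  have hbulk : ∑ φ ∈ Sb, θ (φ.v 0) ≤ η / 2 * (m : ℝ) ^ 6 * Real.log m ^ 2 := by
    have hcond : ∀ φ ∈ Sb, φ.Ang c ∧ φ.EvLe m ∧ nz (φ.v 0) ^ 2 ≤ C0 * m * nz φ.w ∧
        nz φ.w ^ 2 ≤ C0 * m * nz (φ.v 0) ∧ nz (φ.v 0) * nz φ.w * Real.log m ≤ (m : ℝ) ^ 2 := by
      intro φ hφ
      rw [hSb, Finset.mem_filter] at hφ
      obtain ⟨a1, a2, a3, a4⟩ := hS φ hφ.1
      exact ⟨a1, a2, a3, a4, hφ.2⟩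
    have h1 := hCB m Sb θ hm3 hθ0 hcond
    set F := Sb.image (fun φ => (φ.v 0, φ.w)) with hF
    have hFc : ∀ z ∈ F, Prim z.1 ∧ Prim z.2 ∧ dotZ z.2 z.1 = 0 ∧ nz z.1 ≤ (C0 + 1) * m ∧
        nz z.2 ≤ (C0 + 1) * m ∧ 1 ≤ nz z.1 ∧ 1 ≤ nz z.2 := by
      intro z hz
      obtain ⟨φ, hφ, rfl⟩ := Finset.mem_image.1 hz
      obtain ⟨a1, a2, a3, a4, a5⟩ := hcond φ hφ
      obtain ⟨b1, b2, -⟩ := hW0 φ
      have e1 : 1 ≤ nz (φ.v 0) := KFL.one_le_nz (φ.v_ne 0)
      have e2 : 1 ≤ nz φ.w := one_le_w a3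
      have e3 : nz (φ.v 0) ≤ C0 * m := heights e1 e2 a3 a4
      have e4 : nz φ.w ≤ C0 * m := heights e2 e1 a4 a3
      refine ⟨φ.prim 0, b1, b2, ?_, ?_, e1, e2⟩
      · show nz (φ.v 0) ≤ _
        nlinarith
      · show nz φ.w ≤ _
        nlinarith
    have hX2 : 2 ≤ (C0 + 1) * m := by nlinarith
    have hlX : Real.log ((C0 + 1) * m) ≤ 2 * Real.log m := by
      rw [Real.log_mul (by linarith) (by linarith)]
      have := Real.log_le_log (by linarith) hm4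
      linarith
    have hlX0 : 0 ≤ Real.log ((C0 + 1) * m) := Real.log_nonneg (by linarith)
    have h2 : ∑ z ∈ F, θ z.1 ^ 2 / (nz z.1 ^ 2 * nz z.2 ^ 2) ≤
        (η / (2 * A)) ^ 2 * Real.log m ^ 2 := by
      have h3 : ∀ z ∈ F, θ z.1 ^ 2 / (nz z.1 ^ 2 * nz z.2 ^ 2) ≤
          ∑ q ∈ Q, Θ * ((theta (Metric.ball q s) z.1).toReal / (nz z.1 ^ 2 * nz z.2 ^ 2)) := by
        intro z hz
        obtain ⟨-, -, -, -, -, e1, e2⟩ := hFc z hz
        have e3 : 0 < nz z.1 ^ 2 * nz z.2 ^ 2 := by positivity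
        have e4 : θ z.1 ^ 2 ≤ Θ * ∑ q ∈ Q, (theta (Metric.ball q s) z.1).toReal := by
          calc θ z.1 ^ 2 = θ z.1 * θ z.1 := sq _
            _ ≤ Θ * ∑ q ∈ Q, (theta (Metric.ball q s) z.1).toReal :=
              mul_le_mul (hθΘ _) (hθsum _) (hθ0 _) hΘpos.le
        calc θ z.1 ^ 2 / (nz z.1 ^ 2 * nz z.2 ^ 2)
            ≤ (Θ * ∑ q ∈ Q, (theta (Metric.ball q s) z.1).toReal) / (nz z.1 ^ 2 * nz z.2 ^ 2) :=
              div_le_div_of_nonneg_right e4 e3.le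
          _ = _ := by
              rw [Finset.mul_sum, Finset.sum_div]
              apply Finset.sum_congr rfl
              intro q _
              rw [mul_div_assoc]
      have h4 : ∀ q ∈ Q, ∑ z ∈ F, (theta (Metric.ball q s) z.1).toReal /
          (nz z.1 ^ 2 * nz z.2 ^ 2) ≤ C1 * s ^ 3 * (4 * Real.log m ^ 2) + |C'| * (2 * Real.log m) := by
        intro q hq
        have h5 := hC' q ((C0 + 1) * m) F (hQ q hq).1 (hQ q hq).2 hX2
          (fun z hz => ⟨(hFc z hz).1, (hFc z hz).2.1, (hFc z hz).2.2.1, (hFc z hz).2.2.2.1,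
            (hFc z hz).2.2.2.2.1⟩)
        refine h5.trans (add_le_add ?_ ?_)
        · have e1 : C * s ^ 3 ≤ C1 * s ^ 3 := by
            apply mul_le_mul_of_nonneg_right _ (by positivity)
            rw [hC1]
            linarith [le_abs_self C]
          have e2 : Real.log ((C0 + 1) * m) ^ 2 ≤ 4 * Real.log m ^ 2 := by
            have := pow_le_pow_left₀ hlX0 hlX 2
            nlinarith
          exact mul_le_mul e1 e2 (sq_nonneg _) (by positivity)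
        · exact mul_le_mul (le_abs_self _) hlX hlX0 (abs_nonneg _)
      calc ∑ z ∈ F, θ z.1 ^ 2 / (nz z.1 ^ 2 * nz z.2 ^ 2)
          ≤ ∑ z ∈ F, ∑ q ∈ Q, Θ * ((theta (Metric.ball q s) z.1).toReal /
              (nz z.1 ^ 2 * nz z.2 ^ 2)) := Finset.sum_le_sum h3
        _ = ∑ q ∈ Q, Θ * ∑ z ∈ F, (theta (Metric.ball q s) z.1).toReal /
              (nz z.1 ^ 2 * nz z.2 ^ 2) := by
            rw [Finset.sum_comm]
            apply Finset.sum_congr rfl
            intro q _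
            rw [Finset.mul_sum]
        _ ≤ ∑ q ∈ Q, Θ * (C1 * s ^ 3 * (4 * Real.log m ^ 2) + |C'| * (2 * Real.log m)) :=
            Finset.sum_le_sum (fun q hq => mul_le_mul_of_nonneg_left (h4 q hq) hΘpos.le)
        _ = Θ * (4 * C1 * ((Q.card : ℝ) * s ^ 3) * Real.log m ^ 2 +
              2 * ((Q.card : ℝ) * |C'|) * Real.log m) := by
            rw [Finset.sum_const, nsmul_eq_mul]
            ring
        _ ≤ Θ * (4 * C1 * δ * Real.log m ^ 2 + 4 * C1 * δ * Real.log m ^ 2) := by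
            apply mul_le_mul_of_nonneg_left _ hΘpos.le
            apply add_le_add
            · have := mul_le_mul_of_nonneg_left hQs (show 0 ≤ 4 * C1 by positivity)
              exact mul_le_mul_of_nonneg_right this (sq_nonneg _)
            · rw [div_le_iff₀ (by positivity)] at hm2
              nlinarith
        _ = (η / (2 * A)) ^ 2 * Real.log m ^ 2 := by
            rw [hδ]
            field_simp
            ring
    have h5 : Real.sqrt (∑ z ∈ F, θ z.1 ^ 2 / (nz z.1 ^ 2 * nz z.2 ^ 2)) ≤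
        η / (2 * A) * Real.log m := by
      apply Real.sqrt_le_iff.2
      refine ⟨by positivity, h2.trans (le_of_eq (by ring))⟩
    calc ∑ φ ∈ Sb, θ (φ.v 0) ≤ CB * (m : ℝ) ^ 6 * Real.log m *
          Real.sqrt (∑ z ∈ F, θ z.1 ^ 2 / (nz z.1 ^ 2 * nz z.2 ^ 2)) := h1
      _ ≤ A * (m : ℝ) ^ 6 * Real.log m * (η / (2 * A) * Real.log m) := by
          apply mul_le_mul _ h5 (Real.sqrt_nonneg _) (by positivity)
          apply mul_le_mul_of_nonneg_right _ hlm0.le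
          apply mul_le_mul_of_nonneg_right _ (by positivity)
          rw [hA]
          linarith [le_abs_self CB]
      _ = η / 2 * (m : ℝ) ^ 6 * Real.log m ^ 2 := by field_simp
  rw [hsplit]
  linarith

theorem s5b (hW0 : T_W0) (hGO : T_GO) (hSTRIP : T_STRIP) (hBULK : T_BULK) (hCQ : T_CQ) :
    T_S5b := by
  classical
  intro c r R η hc hr hrR hη
  obtain ⟨C0', hC0'⟩ := hGO c hc
  set C0 : ℝ := |C0'| + 1 with hC0
  have hC0pos : 0 < C0 := by positivity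
  set Θ : ℝ := Real.log (4 * R / r) with hΘ
  have hΘpos : 0 < Θ := by
    apply Real.log_pos
    rw [lt_div_iff₀ hr]
    linarith
  obtain ⟨δ, s0, hδ, hs0, hs0r, hA⟩ := lemA hW0 hSTRIP hBULK hCQ c C0 r R (η / (6 * Θ ^ 2)) hc
    hC0pos hr hrR (by positivity)
  refine ⟨δ, s0, hδ, hs0, ?_⟩
  intro s Q hs hss hQ hQs
  have hO : ∀ y ∈ OO Q s, r / 2 ≤ ‖y‖ ∧ ‖y‖ ≤ 2 * R := by
    intro y hy
    simp only [OO, Set.mem_iUnion, exists_prop] at hy
    obtain ⟨q, hq, hy⟩ := hy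
    rw [Metric.mem_ball, dist_eq_norm] at hy
    obtain ⟨h1, h2⟩ := hQ q hq
    have h3 : ‖q‖ ≤ ‖y‖ + ‖y - q‖ := by
      have := norm_sub_le y (y - q)
      simpa using this
    have h4 : ‖y‖ ≤ ‖q‖ + ‖y - q‖ := by
      have := norm_add_le q (y - q)
      simpa using this
    constructor <;> linarith
  set θ : VZ → ℝ := fun x => (theta (OO Q s) x).toReal with hθ
  have hθ0 : ∀ x, 0 ≤ θ x := fun x => ENNReal.toReal_nonneg
  have hθle : ∀ x, theta (OO Q s) x ≤ ENNReal.ofReal Θ := fun x => theta_le hr hrR hO x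
  have hθtop : ∀ x, theta (OO Q s) x ≠ ∞ := fun x => ne_top_of_le_ne_top ENNReal.ofReal_ne_top (hθle x)
  have hθΘ : ∀ x, θ x ≤ Θ := by
    intro x
    have h2 := ENNReal.toReal_mono ENNReal.ofReal_ne_top (hθle x)
    rwa [ENNReal.toReal_ofReal hΘpos.le] at h2
  have hθeq : ∀ x, theta (OO Q s) x = ENNReal.ofReal (θ x) := fun x =>
    (ENNReal.ofReal_toReal (hθtop x)).symm
  filter_upwards [hA s Q hs hss hQ hQs, eventually_ge_atTop 1] with m hm hm1
  change ∑' φ : Frame, Set.indicator {φ : Frame | φ.Ang c ∧ φ.EvLe m}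
    (fun φ => ∏ i, theta (OO Q s) (φ.v i)) φ ≤ _
  rw [ENNReal.tsum_eq_iSup_sum]
  apply iSup_le
  intro T
  set T' := T.filter (fun φ => φ.Ang c ∧ φ.EvLe m) with hT'
  have h1 : ∑ φ ∈ T, Set.indicator {φ : Frame | φ.Ang c ∧ φ.EvLe m}
      (fun φ => ∏ i, theta (OO Q s) (φ.v i)) φ = ENNReal.ofReal (∑ φ ∈ T', ∏ i, θ (φ.v i)) := by
    rw [ENNReal.ofReal_sum_of_nonneg (fun φ _ => Finset.prod_nonneg (fun i _ => hθ0 _))]
    rw [hT', Finset.sum_filter]
    apply Finset.sum_congr rfl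
    intro φ _
    by_cases h : φ.Ang c ∧ φ.EvLe m
    · rw [Set.indicator_of_mem (by exact h), if_pos h,
        ENNReal.ofReal_prod_of_nonneg (fun i _ => hθ0 _)]
      exact Finset.prod_congr rfl (fun i _ => hθeq _)
    · rw [Set.indicator_of_notMem (by exact h), if_neg h]
  rw [h1]
  apply ENNReal.ofReal_le_ofReal
  have hT'c : ∀ φ ∈ T', φ.Ang c ∧ φ.EvLe m := fun φ hφ => (Finset.mem_filter.1 hφ).2
  -- good orderings
  have hgo : ∀ φ ∈ T', ∃ σ : Equiv.Perm (Fin 3), Bal C0 m (φ.perm σ) := by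
    intro φ hφ
    obtain ⟨a1, a2⟩ := hT'c φ hφ
    obtain ⟨σ, h2, h3⟩ := hC0' m φ hm1 a1 a2
    refine ⟨σ, h2.trans ?_, h3.trans ?_⟩
    · apply mul_le_mul_of_nonneg_right _ (KFL.nz_nonneg _)
      apply mul_le_mul_of_nonneg_right _ (Nat.cast_nonneg _)
      rw [hC0]
      linarith [le_abs_self C0']
    · apply mul_le_mul_of_nonneg_right _ (KFL.nz_nonneg _)
      apply mul_le_mul_of_nonneg_right _ (Nat.cast_nonneg _)
      rw [hC0]
      linarith [le_abs_self C0']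
  have h2 : ∑ φ ∈ T', ∏ i, θ (φ.v i) ≤
      ∑ σ : Equiv.Perm (Fin 3), ∑ φ ∈ T'.filter (fun φ => Bal C0 m (φ.perm σ)),
        ∏ i, θ (φ.v i) := by
    have h3 : ∑ σ : Equiv.Perm (Fin 3), ∑ φ ∈ T'.filter (fun φ => Bal C0 m (φ.perm σ)),
        ∏ i, θ (φ.v i) = ∑ φ ∈ T', ∑ σ : Equiv.Perm (Fin 3),
          if Bal C0 m (φ.perm σ) then ∏ i, θ (φ.v i) else 0 := by
      rw [Finset.sum_comm]
      apply Finset.sum_congr rfl
      intro σ _
      rw [Finset.sum_filter]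
    rw [h3]
    apply Finset.sum_le_sum
    intro φ hφ
    obtain ⟨σ, hσ⟩ := hgo φ hφ
    have h4 : (if Bal C0 m (φ.perm σ) then ∏ i, θ (φ.v i) else 0) = ∏ i, θ (φ.v i) := if_pos hσ
    refine h4.ge.trans ?_
    exact Finset.single_le_sum (f := fun σ : Equiv.Perm (Fin 3) =>
      if Bal C0 m (φ.perm σ) then ∏ i, θ (φ.v i) else 0)
      (fun σ _ => by
        by_cases h : Bal C0 m (φ.perm σ)
        · simp only [h, if_true]
          exact Finset.prod_nonneg (fun i _ => hθ0 _)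
        · simp only [h, if_false]; exact le_rfl) (Finset.mem_univ σ)
  refine h2.trans ?_
  have h5 : ∀ σ : Equiv.Perm (Fin 3), ∑ φ ∈ T'.filter (fun φ => Bal C0 m (φ.perm σ)),
      ∏ i, θ (φ.v i) ≤ Θ ^ 2 * (η / (6 * Θ ^ 2) * (m : ℝ) ^ 6 * Real.log m ^ 2) := by
    intro σ
    set U := (T'.filter (fun φ => Bal C0 m (φ.perm σ))).image (Frame.perm σ) with hU
    have h6 := hm U (by
      intro ψ hψ
      obtain ⟨φ, hφ, rfl⟩ := Finset.mem_image.1 hψ
      rw [Finset.mem_filter] at hφ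
      obtain ⟨a1, a2⟩ := hT'c φ hφ.1
      exact ⟨perm_Ang σ a1, perm_EvLe σ a2, hφ.2⟩)
    have h7 : ∑ ψ ∈ U, θ (ψ.v 0) =
        ∑ φ ∈ T'.filter (fun φ => Bal C0 m (φ.perm σ)), θ ((φ.perm σ).v 0) := by
      rw [hU, Finset.sum_image (fun a _ b _ h => perm_inj σ h)]
    have h8 : ∀ φ : Frame, ∏ i, θ (φ.v i) ≤ Θ ^ 2 * θ ((φ.perm σ).v 0) := by
      intro φ
      have h9 := Equiv.prod_comp σ (fun i => θ (φ.v i))
      rw [← h9, Fin.prod_univ_three]
      have h10 : (φ.perm σ).v 0 = φ.v (σ 0) := rfl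
      rw [h10]
      have e1 := hθ0 (φ.v (σ 0))
      have e2 : θ (φ.v (σ 1)) * θ (φ.v (σ 2)) ≤ Θ * Θ :=
        mul_le_mul (hθΘ _) (hθΘ _) (hθ0 _) hΘpos.le
      calc θ (φ.v (σ 0)) * θ (φ.v (σ 1)) * θ (φ.v (σ 2))
          = θ (φ.v (σ 0)) * (θ (φ.v (σ 1)) * θ (φ.v (σ 2))) := by ring
        _ ≤ θ (φ.v (σ 0)) * (Θ * Θ) := mul_le_mul_of_nonneg_left e2 e1
        _ = Θ ^ 2 * θ (φ.v (σ 0)) := by ring
    calc ∑ φ ∈ T'.filter (fun φ => Bal C0 m (φ.perm σ)), ∏ i, θ (φ.v i)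
        ≤ ∑ φ ∈ T'.filter (fun φ => Bal C0 m (φ.perm σ)), Θ ^ 2 * θ ((φ.perm σ).v 0) :=
          Finset.sum_le_sum (fun φ _ => h8 φ)
      _ = Θ ^ 2 * ∑ ψ ∈ U, θ (ψ.v 0) := by rw [← Finset.mul_sum, h7]
      _ ≤ _ := mul_le_mul_of_nonneg_left h6 (by positivity)
  calc ∑ σ : Equiv.Perm (Fin 3), ∑ φ ∈ T'.filter (fun φ => Bal C0 m (φ.perm σ)),
        ∏ i, θ (φ.v i)
      ≤ ∑ _σ : Equiv.Perm (Fin 3), Θ ^ 2 * (η / (6 * Θ ^ 2) * (m : ℝ) ^ 6 * Real.log m ^ 2) :=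
        Finset.sum_le_sum (fun σ _ => h5 σ)
    _ = η * ((m : ℝ) ^ 6 * Real.log m ^ 2) := by
        rw [Finset.sum_const, Finset.card_univ, Fintype.card_perm, Fintype.card_fin]
        have : (Nat.factorial 3) = 6 := rfl
        rw [this, nsmul_eq_mul]
        push_cast
        field_simp

end KF48B
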