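import Mathlib
import Pool.Agent.H22.KF.Targets

/-!
# MP_3fd637_nt, module SM : second moment over flags (helper48)
-/

open MeasureTheory Filter Topology
open scoped ENNReal

namespace KF48

open KF

/-! ### Euclidean norm toolkit -/

theorem nrm_eq (x : V3) : nrm x = ‖(WithLp.toLp 2 x : EuclideanSpace ℝ (Fin 3))‖ := by
  rw [EuclideanSpace.norm_eq]
  unfold nrm
  congr 1
  apply Finset.sum_congr rfl
  intro i _
  simp

theorem nrm_nonneg (x : V3) : 0 ≤ nrm x := Real.sqrt_nonneg _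

theorem nrm_add_le (x y : V3) : nrm (x + y) ≤ nrm x + nrm y := by
  rw [nrm_eq, nrm_eq, nrm_eq, WithLp.toLp_add]
  exact norm_add_le _ _

theorem nrm_sub_le (x y : V3) : nrm (x - y) ≤ nrm x + nrm y := by
  rw [nrm_eq, nrm_eq, nrm_eq, WithLp.toLp_sub]
  exact norm_sub_le _ _

theorem nrm_smul (a : ℝ) (x : V3) : nrm (a • x) = |a| * nrm x := by
  rw [nrm_eq, nrm_eq, WithLp.toLp_smul, norm_smul, Real.norm_eq_abs]

theorem nrm_sq (x : V3) : nrm x ^ 2 = x 0 ^ 2 + x 1 ^ 2 + x 2 ^ 2 := by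
  unfold nrm
  rw [Real.sq_sqrt (Finset.sum_nonneg (fun i _ => sq_nonneg _)), Fin.sum_univ_three]

/-- real cross product -/
def cr (x y : V3) : V3 := ![x 1 * y 2 - x 2 * y 1, x 2 * y 0 - x 0 * y 2, x 0 * y 1 - x 1 * y 0]

theorem nrm_cr_le (x y : V3) : nrm (cr x y) ≤ nrm x * nrm y := by
  apply le_of_sq_le_sq _ (mul_nonneg (nrm_nonneg _) (nrm_nonneg _))
  rw [mul_pow, nrm_sq, nrm_sq, nrm_sq]
  simp only [cr, Matrix.cons_val_zero, Matrix.cons_val_one, Matrix.cons_val]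
  nlinarith [sq_nonneg (x 0 * y 0 + x 1 * y 1 + x 2 * y 2)]

/-- real triple product -/
def tp (x y z : V3) : ℝ := cr x y 0 * z 0 + cr x y 1 * z 1 + cr x y 2 * z 2

theorem abs_tp_le (x y z : V3) : |tp x y z| ≤ nrm (cr x y) * nrm z := by
  apply abs_le_of_sq_le_sq _ (mul_nonneg (nrm_nonneg _) (nrm_nonneg _))
  rw [mul_pow, nrm_sq, nrm_sq]
  unfold tp
  nlinarith [sq_nonneg (cr x y 0 * z 1 - cr x y 1 * z 0), sq_nonneg (cr x y 0 * z 2 - cr x y 2 * z 0),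
    sq_nonneg (cr x y 1 * z 2 - cr x y 2 * z 1)]

theorem cr_cst (x y : VZ) : cr (cst x) (cst y) = cst (crossZ x y) := by
  funext i
  fin_cases i <;> simp [cr, cst, crossZ]

/-- the action of `γ` on real vectors -/
noncomputable def actR (γ : GZ) (x : V3) : V3 := ((γ : MZ).map (Int.cast : ℤ → ℝ)).mulVec x

theorem actR_cst (γ : GZ) (x : VZ) : actR γ (cst x) = cst (mulZ γ x) := by
  funext i
  simp [actR, cst, mulZ, Matrix.mulVec, dotProduct]

theorem actR_inj (γ : GZ) : Function.Injective (actR γ) := by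
  have h1 : ((γ⁻¹ : GZ) : MZ).map (Int.cast : ℤ → ℝ) * (γ : MZ).map (Int.cast : ℤ → ℝ) = 1 := by
    have h2 : ((γ⁻¹ : GZ) : MZ) * (γ : MZ) = 1 := by
      rw [← Units.val_mul, inv_mul_cancel, Units.val_one]
    have h3 := congrArg (fun A : MZ => (Int.castRingHom ℝ).mapMatrix A) h2
    simp only [map_mul, map_one] at h3
    exact h3
  intro x y hxy
  have h4 := congrArg (fun z => (((γ⁻¹ : GZ) : MZ).map (Int.cast : ℤ → ℝ)).mulVec z) hxy
  simp only [actR, Matrix.mulVec_mulVec] at h4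
  rw [h1] at h4
  simpa using h4

theorem actR_add (γ : GZ) (x y : V3) : actR γ (x + y) = actR γ x + actR γ y :=
  Matrix.mulVec_add _ _ _

theorem actR_sub (γ : GZ) (x y : V3) : actR γ (x - y) = actR γ x - actR γ y :=
  Matrix.mulVec_sub _ _ _

theorem actR_smul (γ : GZ) (a : ℝ) (x : V3) : actR γ (a • x) = a • actR γ x :=
  Matrix.mulVec_smul _ _ _

theorem det_GZ (γ : GZ) : |Matrix.det ((γ : MZ).map (Int.cast : ℤ → ℝ))| = 1 := by
  have h1 : IsUnit (Matrix.det (γ : MZ)) := (Matrix.isUnit_iff_isUnit_det _).1 γ.isUnit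
  have h2 : Matrix.det ((γ : MZ).map (Int.cast : ℤ → ℝ)) = ((Matrix.det (γ : MZ) : ℤ) : ℝ) := by
    have := (Int.castRingHom ℝ).map_det (γ : MZ)
    simpa using this.symm
  rw [h2]
  rcases Int.isUnit_iff.1 h1 with h | h <;> rw [h] <;> simp

theorem det_act (γ : GZ) (φ : Frame) : |Matrix.det (φ.act γ).Rm| = |Matrix.det φ.Rm| := by
  have h1 : (φ.act γ).Rm = φ.Rm * ((γ : MZ).map (Int.cast : ℤ → ℝ)).transpose := by
    ext i j
    simp only [Frame.Rm, Frame.act, Matrix.of_apply, mulZ, Matrix.mulVec, dotProduct,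
      Matrix.mul_apply, Matrix.transpose_apply, Matrix.map_apply]
    push_cast
    exact Finset.sum_congr rfl (fun k _ => mul_comm _ _)
  rw [h1, Matrix.det_mul, Matrix.det_transpose, abs_mul, det_GZ, mul_one]

theorem tp_det (φ : Frame) :
    tp (cst (φ.v 0)) (cst (φ.v 1)) (cst (φ.v 2)) = Matrix.det φ.Rm := by
  rw [Matrix.det_fin_three]
  simp only [tp, cr, cst, Frame.Rm, Matrix.of_apply, Matrix.cons_val_zero, Matrix.cons_val_one,
    Matrix.cons_val]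
  ring

/-- data attached to a frame and an adapted `γ` -/
theorem adapted (hW0 : T_W0) (φ : Frame) (γ : GZ) (t : Tup) (hl : t.l = φ.ev)
    (h : conjZ γ φ.M = tri t.l t.a t.c t.b) (h0 : mulZ γ (φ.v 0) = ![1, 0, 0])
    (hw : (fun j => (γ : MZ) 2 j) = φ.w) :
    ∃ k1 k2 : ℝ, k1 ≠ 0 ∧ k2 ≠ 0 ∧ |Matrix.det φ.Rm| = |k1| * |k2| ∧
      nrm (cr (cst (φ.v 0)) (cst (φ.v 1))) = |k1| * nz φ.w ∧
      actR γ (cst (φ.v 1)) = k1 • ![t.u01, 1, 0] ∧
      actR γ (cst (φ.v 2)) = k2 • ![t.u02, t.u12, 1] := by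
  have hne01 : t.l 1 - t.l 0 ≠ 0 := by
    rw [hl, sub_ne_zero]; intro h1; exact absurd (φ.inj h1) (by decide)
  have hne12 : t.l 2 - t.l 1 ≠ 0 := by
    rw [hl, sub_ne_zero]; intro h1; exact absurd (φ.inj h1) (by decide)
  have hne02 : t.l 2 - t.l 0 ≠ 0 := by
    rw [hl, sub_ne_zero]; intro h1; exact absurd (φ.inj h1) (by decide)
  have e1 := (φ.act γ).eig 1
  have e2 := (φ.act γ).eig 2
  have hM : (φ.act γ).M = tri t.l t.a t.c t.b := h
  have hev : (φ.act γ).ev = t.l := hl.symm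
  rw [hM, hev] at e1 e2
  set z1 : VZ := (φ.act γ).v 1 with hz1
  set z2 : VZ := (φ.act γ).v 2 with hz2
  have hz1ne : z1 ≠ 0 := (φ.act γ).v_ne 1
  have hz2ne : z2 ≠ 0 := (φ.act γ).v_ne 2
  have a0 := congrFun e1 0
  have a1 := congrFun e1 1
  have a2 := congrFun e1 2
  have b0 := congrFun e2 0
  have b1 := congrFun e2 1
  have b2 := congrFun e2 2
  simp only [tri, Matrix.mulVec, dotProduct, Fin.sum_univ_three, Matrix.of_apply,
    Matrix.cons_val_zero, Matrix.cons_val_one, Matrix.cons_val, Pi.smul_apply, smul_eq_mul,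
    Matrix.cons_val', Matrix.cons_val_fin_one, zero_mul, zero_add, add_zero] at a0 a1 a2 b0 b1 b2
  have hz12 : z1 2 = 0 := by
    have : (t.l 2 - t.l 1) * z1 2 = 0 := by linear_combination a2
    exact (mul_eq_zero.1 this).resolve_left hne12
  have hz10 : (t.l 1 - t.l 0) * z1 0 = t.a * z1 1 := by
    rw [hz12] at a0; linear_combination -a0
  have hk1 : z1 1 ≠ 0 := by
    intro hk
    rw [hk, mul_zero] at hz10
    have h2 := (mul_eq_zero.1 hz10).resolve_left hne01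
    apply hz1ne
    funext i
    fin_cases i
    · exact h2
    · exact hk
    · exact hz12
  have hz21 : (t.l 2 - t.l 1) * z2 1 = t.c * z2 2 := by linear_combination -b1
  have hz20 : (t.l 2 - t.l 0) * z2 0 = t.a * z2 1 + t.b * z2 2 := by linear_combination -b0
  have hk2 : z2 2 ≠ 0 := by
    intro hk
    rw [hk, mul_zero] at hz21
    have h2 := (mul_eq_zero.1 hz21).resolve_left hne12
    rw [hk, h2, mul_zero, mul_zero, add_zero] at hz20
    have h3 := (mul_eq_zero.1 hz20).resolve_left hne02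
    apply hz2ne
    funext i
    fin_cases i
    · exact h3
    · exact h2
    · exact hk
  have hr01 : ((t.l 1 - t.l 0 : ℤ) : ℝ) ≠ 0 := by exact_mod_cast hne01
  have hr12 : ((t.l 2 - t.l 1 : ℤ) : ℝ) ≠ 0 := by exact_mod_cast hne12
  have hr02 : ((t.l 2 - t.l 0 : ℤ) : ℝ) ≠ 0 := by exact_mod_cast hne02
  have hdet : |Matrix.det φ.Rm| = |(z1 1 : ℝ)| * |(z2 2 : ℝ)| := by
    rw [← det_act γ, Matrix.det_fin_three]
    have q0 : ∀ j, (φ.act γ).Rm 0 j = ((![1, 0, 0] : VZ) j : ℝ) := by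
      intro j
      show (((φ.act γ).v 0 j : ℤ) : ℝ) = _
      rw [show (φ.act γ).v 0 = ![1, 0, 0] from h0]
    have q1 : ∀ j, (φ.act γ).Rm 1 j = (z1 j : ℝ) := fun j => rfl
    have q2 : ∀ j, (φ.act γ).Rm 2 j = (z2 j : ℝ) := fun j => rfl
    rw [q0, q0, q0, q1, q1, q1, q2, q2, q2, hz12]
    simp [abs_mul]
  obtain ⟨-, -, -, hg, hcross, -, -⟩ := hW0 φ
  set g : ℤ := gcd3 (crossZ (φ.v 0) (φ.v 1)) with hgdef
  have hdw : dotZ φ.w (φ.v 2) = z2 2 := by
    rw [← hw]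
    show _ = mulZ γ (φ.v 2) 2
    simp [dotZ, mulZ, Matrix.mulVec, dotProduct, Fin.sum_univ_three]
  have hgk : (g : ℝ) = |(z1 1 : ℝ)| := by
    have h5 : Matrix.det φ.Rm = (g : ℝ) * (z2 2 : ℝ) := by
      rw [← tp_det, ← hdw]
      unfold tp
      rw [cr_cst, hcross]
      simp only [cst, Pi.smul_apply, smul_eq_mul, dotZ]
      push_cast
      ring
    rw [h5, abs_mul] at hdet
    have h6 : |(z2 2 : ℝ)| ≠ 0 := abs_ne_zero.2 (by exact_mod_cast hk2)
    have h7 := mul_right_cancel₀ h6 hdet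
    rw [← h7, abs_of_pos (by exact_mod_cast hg)]
  refine ⟨(z1 1 : ℝ), (z2 2 : ℝ), by exact_mod_cast hk1, by exact_mod_cast hk2, hdet, ?_, ?_, ?_⟩
  · rw [cr_cst, hcross, ← hgk]
    have : cst (g • φ.w) = (g : ℝ) • cst φ.w := by
      funext i; simp [cst]
    rw [this, nrm_smul, abs_of_pos (by exact_mod_cast hg)]
    rfl
  · rw [actR_cst]
    show cst z1 = _
    funext i
    fin_cases i
    · show (z1 0 : ℝ) = (z1 1 : ℝ) * t.u01
      unfold Tup.u01
      field_simp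
      have : (((t.l 1 - t.l 0) * z1 0 : ℤ) : ℝ) = ((t.a * z1 1 : ℤ) : ℝ) := by rw [hz10]
      push_cast at this ⊢
      linear_combination this
    · show (z1 1 : ℝ) = (z1 1 : ℝ) * 1
      ring
    · show (z1 2 : ℝ) = (z1 1 : ℝ) * 0
      rw [hz12]; simp
  · rw [actR_cst]
    show cst z2 = _
    have c21 : (((t.l 2 - t.l 1) * z2 1 : ℤ) : ℝ) = ((t.c * z2 2 : ℤ) : ℝ) := by rw [hz21]
    have c20 : (((t.l 2 - t.l 0) * z2 0 : ℤ) : ℝ) = ((t.a * z2 1 + t.b * z2 2 : ℤ) : ℝ) := by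
      rw [hz20]
    have d21 : (z2 1 : ℝ) = (z2 2 : ℝ) * t.u12 := by
      unfold Tup.u12
      field_simp
      push_cast at c21 ⊢
      linear_combination c21
    funext i
    fin_cases i
    · show (z2 0 : ℝ) = (z2 2 : ℝ) * t.u02
      unfold Tup.u02
      field_simp
      push_cast at c20 ⊢
      rw [d21] at c20
      linear_combination c20
    · exact d21
    · show (z2 2 : ℝ) = (z2 2 : ℝ) * 1
      ring

theorem nz_pos {x : VZ} (hx : x ≠ 0) : 0 < nz x := by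
  unfold nz
  rcases eq_or_lt_of_le (nrm_nonneg (cst x)) with h | h
  · exfalso
    apply hx
    have h2 := nrm_sq (cst x)
    rw [← h] at h2
    have h3 : ∀ i, cst x i ^ 2 = 0 := by
      intro i
      have h0 := sq_nonneg (cst x 0)
      have h1 := sq_nonneg (cst x 1)
      have h2' := sq_nonneg (cst x 2)
      fin_cases i
      · show cst x 0 ^ 2 = 0
        nlinarith
      · show cst x 1 ^ 2 = 0
        nlinarith
      · show cst x 2 ^ 2 = 0
        nlinarith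
    funext i
    have h4 := pow_eq_zero_iff (two_ne_zero) |>.1 (h3 i)
    simpa [cst] using h4
  · exact h

theorem cr_smul_right (a : ℝ) (x y : V3) : cr x (a • y) = a • cr x y := by
  funext i
  fin_cases i <;> simp [cr] <;> ring

theorem sizes (hW0 : T_W0) (φ : Frame) (γ : GZ) (t : Tup) (c : ℝ) (hc : 0 < c) (hl : t.l = φ.ev)
    (h : conjZ γ φ.M = tri t.l t.a t.c t.b) (h0 : mulZ γ (φ.v 0) = ![1, 0, 0])
    (hw : (fun j => (γ : MZ) 2 j) = φ.w) (hA : φ.Ang c) :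
    ∃ Y1 Y2 : V3, actR γ Y1 = ![t.u01, 1, 0] ∧ actR γ Y2 = ![t.u02, t.u12, 1] ∧
      nrm Y1 * (c * nz (φ.v 0)) ≤ nz φ.w ∧ nrm Y2 * (c * nz φ.w) ≤ 1 ∧
      nrm (cr (cst (φ.v 0)) Y1) = nz φ.w := by
  obtain ⟨k1, k2, hk1, hk2, hdet, hcr, hy1, hy2⟩ := adapted hW0 φ γ t hl h h0 hw
  have p1 : 0 < |k1| := abs_pos.2 hk1
  have p2 : 0 < |k2| := abs_pos.2 hk2
  have A0 : 0 < nz (φ.v 0) := nz_pos (φ.v_ne 0)
  have A1 : 0 < nz (φ.v 1) := nz_pos (φ.v_ne 1)
  have A2 : 0 < nz (φ.v 2) := nz_pos (φ.v_ne 2)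
  have hW : 0 ≤ nz φ.w := nrm_nonneg _
  unfold Frame.Ang at hA
  have hdet2 : |Matrix.det φ.Rm| ≤ |k1| * nz φ.w * nz (φ.v 2) := by
    rw [← tp_det, ← hcr]
    exact abs_tp_le _ _ _
  have hcr2 : |k1| * nz φ.w ≤ nz (φ.v 0) * nz (φ.v 1) := by
    rw [← hcr]; exact nrm_cr_le _ _
  refine ⟨k1⁻¹ • cst (φ.v 1), k2⁻¹ • cst (φ.v 2), ?_, ?_, ?_, ?_, ?_⟩
  · rw [actR_smul, hy1, smul_smul, inv_mul_cancel₀ hk1, one_smul]
  · rw [actR_smul, hy2, smul_smul, inv_mul_cancel₀ hk2, one_smul]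
  · rw [nrm_smul, abs_inv]
    have h1 : c * (nz (φ.v 0) * nz (φ.v 1)) ≤ |k1| * nz φ.w := by
      have h2 := hA.trans hdet2
      have h3 : c * (nz (φ.v 0) * nz (φ.v 1)) * nz (φ.v 2) ≤ |k1| * nz φ.w * nz (φ.v 2) := by
        nlinarith
      exact le_of_mul_le_mul_right h3 A2
    have h4 : |k1|⁻¹ * nrm (cst (φ.v 1)) * (c * nz (φ.v 0))
        = |k1|⁻¹ * (c * (nz (φ.v 0) * nz (φ.v 1))) := by unfold nz; ring
    rw [h4]
    calc |k1|⁻¹ * (c * (nz (φ.v 0) * nz (φ.v 1))) ≤ |k1|⁻¹ * (|k1| * nz φ.w) := by gcongr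
      _ = nz φ.w := by rw [← mul_assoc, inv_mul_cancel₀ p1.ne', one_mul]
  · rw [nrm_smul, abs_inv]
    have h1 : c * (|k1| * nz φ.w) * nz (φ.v 2) ≤ |k1| * |k2| := by
      rw [← hdet]
      refine le_trans ?_ hA
      have : c * (|k1| * nz φ.w) * nz (φ.v 2) ≤ c * (nz (φ.v 0) * nz (φ.v 1)) * nz (φ.v 2) := by
        gcongr
      linarith [this]
    have h2 : c * nz φ.w * nz (φ.v 2) ≤ |k2| := by
      have : |k1| * (c * nz φ.w * nz (φ.v 2)) ≤ |k1| * |k2| := by linarith [h1]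
      exact le_of_mul_le_mul_left this p1
    have h4 : |k2|⁻¹ * nrm (cst (φ.v 2)) * (c * nz φ.w)
        = |k2|⁻¹ * (c * nz φ.w * nz (φ.v 2)) := by unfold nz; ring
    rw [h4]
    calc |k2|⁻¹ * (c * nz φ.w * nz (φ.v 2)) ≤ |k2|⁻¹ * |k2| := by gcongr
      _ = 1 := inv_mul_cancel₀ p2.ne'
  · rw [cr_smul_right, nrm_smul, hcr, abs_inv, ← mul_assoc, inv_mul_cancel₀ p1.ne', one_mul]

theorem diff_bound (hW0 : T_W0) (φ ψ : Frame) (γ : GZ) (t t' : Tup) (c : ℝ) (hc : 0 < c)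
    (hl : t.l = φ.ev) (hl' : t'.l = ψ.ev)
    (h : conjZ γ φ.M = tri t.l t.a t.c t.b) (h' : conjZ γ ψ.M = tri t'.l t'.a t'.c t'.b)
    (h0 : mulZ γ (φ.v 0) = ![1, 0, 0]) (hw : (fun j => (γ : MZ) 2 j) = φ.w)
    (hv : φ.v 0 = ψ.v 0) (hww : φ.w = ψ.w) (hA : φ.Ang c) (hA' : ψ.Ang c) (P Q : ℝ)
    (hP : 0 < P) (hQ : 0 < Q) (b1 : P ≤ nz (φ.v 0)) (b2 : nz (φ.v 0) ≤ Real.exp 1 * P)
    (b3 : Q ≤ nz φ.w) (b4 : nz φ.w ≤ Real.exp 1 * Q) :
    |t'.u01 - t.u01| ≤ 2 * Real.exp 1 / c * (Q / P ^ 2) ∧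
    |t'.u12 - t.u12| ≤ 2 * Real.exp 1 / c * (P / Q ^ 2) ∧
    |t'.u02 - t.u02 - t.u01 * (t'.u12 - t.u12)|
      ≤ (2 / c + 2 * Real.exp 1 ^ 2 / c ^ 2) * (1 / (P * Q)) := by
  obtain ⟨Y1, Y2, e1, e2, n1, n2, n3⟩ := sizes hW0 φ γ t c hc hl h h0 hw hA
  obtain ⟨Z1, Z2, f1, f2, m1, m2, m3⟩ := sizes hW0 ψ γ t' c hc hl' h' (by rw [← hv]; exact h0)
    (by rw [← hww]; exact hw) hA'
  rw [← hv, ← hww] at m1 m3
  rw [← hww] at m2
  set V : V3 := cst (φ.v 0) with hV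
  have hVn : nrm V = nz (φ.v 0) := rfl
  have e0 : actR γ V = ![1, 0, 0] := by
    rw [hV, actR_cst, h0]
    funext i
    fin_cases i <;> simp [cst]
  set E := Real.exp 1 with hE
  have hEpos : 0 < E := Real.exp_pos 1
  -- sizes
  have hA0 : 0 < nz (φ.v 0) := hP.trans_le b1
  have hB0 : 0 < nz φ.w := hQ.trans_le b3
  have bY1 : nrm Y1 ≤ E * Q / (c * P) := by
    rw [le_div_iff₀ (by positivity)]
    calc nrm Y1 * (c * P) ≤ nrm Y1 * (c * nz (φ.v 0)) := by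
          have := nrm_nonneg Y1
          gcongr
      _ ≤ nz φ.w := n1
      _ ≤ E * Q := b4
  have bZ1 : nrm Z1 ≤ E * Q / (c * P) := by
    rw [le_div_iff₀ (by positivity)]
    calc nrm Z1 * (c * P) ≤ nrm Z1 * (c * nz (φ.v 0)) := by
          have := nrm_nonneg Z1
          gcongr
      _ ≤ nz φ.w := m1
      _ ≤ E * Q := b4
  have bY2 : nrm Y2 ≤ 1 / (c * Q) := by
    rw [le_div_iff₀ (by positivity)]
    calc nrm Y2 * (c * Q) ≤ nrm Y2 * (c * nz φ.w) := by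
          have := nrm_nonneg Y2
          gcongr
      _ ≤ 1 := n2
  have bZ2 : nrm Z2 ≤ 1 / (c * Q) := by
    rw [le_div_iff₀ (by positivity)]
    calc nrm Z2 * (c * Q) ≤ nrm Z2 * (c * nz φ.w) := by
          have := nrm_nonneg Z2
          gcongr
      _ ≤ 1 := m2
  -- r01
  have g1 : Z1 - Y1 = (t'.u01 - t.u01) • V := by
    apply actR_inj γ
    rw [actR_sub, actR_smul, e0, e1, f1]
    funext i
    fin_cases i <;> simp
  have r1 : |t'.u01 - t.u01| ≤ 2 * E / c * (Q / P ^ 2) := by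
    have h1 : |t'.u01 - t.u01| * nz (φ.v 0) ≤ E * Q / (c * P) + E * Q / (c * P) := by
      rw [← hVn, ← nrm_smul, ← g1]
      exact (nrm_sub_le _ _).trans (add_le_add bZ1 bY1)
    have h2 : |t'.u01 - t.u01| * P ≤ E * Q / (c * P) + E * Q / (c * P) :=
      le_trans (by gcongr) h1
    rw [← le_div_iff₀ hP] at h2
    refine h2.trans (le_of_eq ?_)
    field_simp
    ring
  have g2 : Z2 - Y2 = (t'.u12 - t.u12) • Y1
      + (t'.u02 - t.u02 - t.u01 * (t'.u12 - t.u12)) • V := by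
    apply actR_inj γ
    rw [actR_sub, actR_add, actR_smul, actR_smul, e0, e1, e2, f2]
    funext i
    fin_cases i
    · simp; ring
    · simp
    · simp
  have r2 : |t'.u12 - t.u12| ≤ 2 * E / c * (P / Q ^ 2) := by
    have h1 : cr V (Z2 - Y2) = (t'.u12 - t.u12) • cr V Y1 := by
      rw [g2]
      funext i
      fin_cases i
      · simp [cr]; ring
      · simp [cr]; ring
      · simp [cr]; ring
    have h2 : |t'.u12 - t.u12| * nz φ.w ≤ (E * P) * (1 / (c * Q) + 1 / (c * Q)) := by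
      rw [← n3, ← nrm_smul, ← h1]
      refine (nrm_cr_le _ _).trans ?_
      have h3 := (nrm_sub_le Z2 Y2).trans (add_le_add bZ2 bY2)
      have h4 : 0 ≤ nrm (Z2 - Y2) := nrm_nonneg _
      exact mul_le_mul b2 h3 h4 (by positivity)
    have h5 : |t'.u12 - t.u12| * Q ≤ (E * P) * (1 / (c * Q) + 1 / (c * Q)) :=
      le_trans (by gcongr) h2
    rw [← le_div_iff₀ hQ] at h5
    refine h5.trans (le_of_eq ?_)
    field_simp
    ring
  refine ⟨r1, r2, ?_⟩
  set r := t'.u02 - t.u02 - t.u01 * (t'.u12 - t.u12) with hr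
  have g3 : r • V = (Z2 - Y2) - (t'.u12 - t.u12) • Y1 := by rw [g2]; abel
  have h1 : |r| * nz (φ.v 0) ≤ (1 / (c * Q) + 1 / (c * Q))
      + 2 * E / c * (P / Q ^ 2) * (E * Q / (c * P)) := by
    rw [← hVn, ← nrm_smul, g3]
    refine (nrm_sub_le _ _).trans (add_le_add ((nrm_sub_le Z2 Y2).trans (add_le_add bZ2 bY2)) ?_)
    rw [nrm_smul]
    exact mul_le_mul r2 bY1 (nrm_nonneg _) (by positivity)
  have h2 : |r| * P ≤ (1 / (c * Q) + 1 / (c * Q))
      + 2 * E / c * (P / Q ^ 2) * (E * Q / (c * P)) := le_trans (by gcongr) h1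
  rw [← le_div_iff₀ hP] at h2
  refine h2.trans (le_of_eq ?_)
  field_simp
  ring

theorem frame_ext {φ ψ : Frame} (hM : φ.M = ψ.M) (he : φ.ev = ψ.ev) (hv : φ.v = ψ.v) : φ = ψ := by
  cases φ; cases ψ
  simp only at hM he hv
  subst hM he hv
  rfl

theorem same_card (hSGN : T_SGN) (X : Finset Frame) (M : MZ) (l : Fin 3 → ℤ)
    (hX : ∀ φ ∈ X, φ.M = M ∧ φ.ev = l) : X.card ≤ 8 := by
  classical
  rcases X.eq_empty_or_nonempty with h | ⟨φ0, h0⟩
  · rw [h]; simp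
  have key : ∀ φ ∈ X, ∀ i, φ.v i = φ0.v i ∨ φ.v i = -φ0.v i := by
    intro φ hφ i
    obtain ⟨σ, hσ⟩ := hSGN φ0 φ ((hX _ h0).1.trans (hX _ hφ).1.symm)
    obtain ⟨h1, h2⟩ := hσ i
    rw [(hX _ hφ).2, ← (hX _ h0).2] at h1
    have h3 := φ0.inj h1
    rw [← h3] at h2
    exact h2
  have h1 : X.card ≤ (Finset.univ : Finset (Fin 3 → Bool)).card := by
    apply Finset.card_le_card_of_injOn (fun φ => fun i => decide (φ.v i = φ0.v i))
    · intro φ _
      exact Finset.mem_coe.2 (Finset.mem_univ _)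
    · intro φ hφ ψ hψ hfun
      apply frame_ext ((hX _ hφ).1.trans (hX _ hψ).1.symm) ((hX _ hφ).2.trans (hX _ hψ).2.symm)
      funext i
      have h2 := congrFun hfun i
      simp only [decide_eq_decide] at h2
      rcases key φ hφ i with h3 | h3
      · rw [h3, h2.1 h3]
      · rcases key ψ hψ i with h4 | h4
        · rw [h2.2 h4, h4]
        · rw [h3, h4]
  refine h1.trans (le_of_eq ?_)
  simp

theorem same_card_pair (hSGN : T_SGN) (X : Finset (Frame × Frame)) (M M' : MZ) (l l' : Fin 3 → ℤ)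
    (hX : ∀ t ∈ X, (t.1.M = M ∧ t.1.ev = l) ∧ (t.2.M = M' ∧ t.2.ev = l')) : X.card ≤ 64 := by
  classical
  have h1 : X ⊆ (X.image Prod.fst) ×ˢ (X.image Prod.snd) := by
    intro t ht
    rw [Finset.mem_product]
    exact ⟨Finset.mem_image_of_mem _ ht, Finset.mem_image_of_mem _ ht⟩
  have h2 := Finset.card_le_card h1
  rw [Finset.card_product] at h2
  have h3 : (X.image Prod.fst).card ≤ 8 := by
    apply same_card hSGN _ M l
    intro φ hφ
    obtain ⟨t, ht, rfl⟩ := Finset.mem_image.1 hφ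
    exact (hX t ht).1
  have h4 : (X.image Prod.snd).card ≤ 8 := by
    apply same_card hSGN _ M' l'
    intro φ hφ
    obtain ⟨t, ht, rfl⟩ := Finset.mem_image.1 hφ
    exact (hX t ht).2
  calc X.card ≤ _ := h2
    _ ≤ 8 * 8 := Nat.mul_le_mul h3 h4
    _ = 64 := rfl

theorem conj_back (γ : GZ) {M N : MZ} (h : conjZ γ M = N) : M = conjZ γ⁻¹ N := by
  rw [← h, ← conjZ_mul, inv_mul_cancel, conjZ_one]

theorem sm (hTR : T_TR) (hTR2 : T_TR2) (hBXC : T_BXC) (hBM : T_BM) (hPC : T_PC) (hSGN : T_SGN)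
    (hW0 : T_W0) : T_SM := by
  classical
  intro c C0 hc hC0
  obtain ⟨K, hK⟩ := hBXC c hc
  set E := Real.exp 1 with hE
  have hEpos : 0 < E := Real.exp_pos 1
  set K1 : ℝ := 2 * E / c with hK1
  set K3 : ℝ := 2 / c + 2 * E ^ 2 / c ^ 2 with hK3
  have hK1p : 0 < K1 := by positivity
  have hK3p : 0 < K3 := by positivity
  set κ : ℝ := min (K1 / C0) (K3 / C0) with hκ
  have hκp : 0 < κ := lt_min (by positivity) (by positivity)
  obtain ⟨CP, hCP⟩ := hPC κ hκp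
  choose g A Cc B hconj hredA hredC hredB hg0 hgw using hTR
  refine ⟨64 * (2 * K + 1) ^ 9 * CP * (K1 * K1 * K3), ?_⟩
  intro m p q s hm hc1 hc2 hc3 hs
  have hex : ∀ t : Frame × Frame, ∃ T : Tup, t.1.v 0 = t.2.v 0 → t.1.w = t.2.w →
      T.l = t.2.ev ∧ conjZ (g t.1) t.2.M = tri T.l T.a T.c T.b := by
    intro t
    by_cases h : t.1.v 0 = t.2.v 0 ∧ t.1.w = t.2.w
    · obtain ⟨a, c', b, h1⟩ := hTR2 t.2 (g t.1) (by rw [← h.1]; exact hg0 _)
        (by rw [← h.2]; exact hgw _)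
      exact ⟨⟨t.2.ev, a, c', b⟩, fun _ _ => ⟨rfl, h1⟩⟩
    · exact ⟨⟨t.2.ev, 0, 0, 0⟩, fun h1 h2 => absurd ⟨h1, h2⟩ h⟩
  choose T' hT' using hex
  set T : Frame → Tup := fun φ => ⟨φ.ev, A φ, Cc φ, B φ⟩ with hT
  set F : Frame × Frame → Tup × Tup := fun t => (T t.1, T' t) with hF
  set P := Real.exp p with hP
  set Q := Real.exp q with hQ
  have hPp : 0 < P := Real.exp_pos _
  have hQp : 0 < Q := Real.exp_pos _
  have hmR : (2 : ℝ) ≤ m := by exact_mod_cast hm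
  have hmp : (0 : ℝ) < m := by linarith
  have hP1 : Real.exp (p + 1) = E * P := by rw [Real.exp_add, mul_comm]
  have hQ1 : Real.exp (q + 1) = E * Q := by rw [Real.exp_add, mul_comm]
  have hP2 : Real.exp (2 * p) = P ^ 2 := by rw [two_mul, Real.exp_add, sq]
  have hQ2 : Real.exp (2 * q) = Q ^ 2 := by rw [two_mul, Real.exp_add, sq]
  rw [hP2] at hc1
  rw [hQ2] at hc2
  rw [Real.exp_add] at hc3
  set d1 : ℝ := K1 * (Q / P ^ 2) with hd1
  set d2 : ℝ := K1 * (P / Q ^ 2) with hd2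
  set d3 : ℝ := K3 * (1 / (P * Q)) with hd3
  have hd1p : 0 < d1 := by positivity
  have hd2p : 0 < d2 := by positivity
  have hd3p : 0 < d3 := by positivity
  have k1 : κ ≤ d1 * m := by
    refine (min_le_left _ _).trans ?_
    rw [hd1, div_le_iff₀ hC0]
    have : K1 * (Q / P ^ 2) * m * C0 = K1 * ((C0 * m * Q) / P ^ 2) := by ring
    rw [this]
    have h1 : 1 ≤ (C0 * m * Q) / P ^ 2 := by
      rw [le_div_iff₀ (by positivity)]; linarith
    nlinarith
  have k2 : κ ≤ d2 * m := by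
    refine (min_le_left _ _).trans ?_
    rw [hd2, div_le_iff₀ hC0]
    have : K1 * (P / Q ^ 2) * m * C0 = K1 * ((C0 * m * P) / Q ^ 2) := by ring
    rw [this]
    have h1 : 1 ≤ (C0 * m * P) / Q ^ 2 := by
      rw [le_div_iff₀ (by positivity)]; linarith
    nlinarith
  have k3 : κ * Real.log m ≤ d3 * (m : ℝ) ^ 2 := by
    have hlog : 0 ≤ Real.log m := Real.log_nonneg (by linarith)
    have h0 : κ * Real.log m ≤ K3 / C0 * Real.log m :=
      mul_le_mul_of_nonneg_right (min_le_right _ _) hlog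
    refine h0.trans ?_
    rw [hd3, div_mul_eq_mul_div, div_le_iff₀ hC0]
    have : K3 * (1 / (P * Q)) * (m : ℝ) ^ 2 * C0 = K3 * (C0 * (m : ℝ) ^ 2 / (P * Q)) := by ring
    rw [this]
    have h1 : Real.log m ≤ C0 * (m : ℝ) ^ 2 / (P * Q) := by
      rw [le_div_iff₀ (by positivity)]; linarith
    exact mul_le_mul_of_nonneg_left h1 hK3p.le
  -- the image
  have himg : ((s.image F).card : ℝ) ≤ CP * (m : ℝ) ^ 12 * (d1 * d2 * d3) := by
    refine hCP m d1 d2 d3 (s.image F) hm hd1p hd2p hd3p k1 k2 k3 ?_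
    intro u hu
    obtain ⟨t, ht, rfl⟩ := Finset.mem_image.1 hu
    obtain ⟨q1, q2, q3, q4, q5, q6, q7, q8⟩ := hs t ht
    obtain ⟨r1, r2⟩ := hT' t q5 q6
    have hdb := diff_bound hW0 t.1 t.2 (g t.1) (T t.1) (T' t) c hc rfl r1 (hconj _) r2 (hg0 _)
      (hgw _) q5 q6 q1 q2 P Q hPp hQp q7.1 (by rw [← hE, ← hP1]; exact q7.2.le) q8.1
      (by rw [← hE, ← hQ1]; exact q8.2.le)
    refine ⟨⟨t.1.inj, q3⟩, ⟨hredA _, hredC _, hredB _⟩, ⟨?_, ?_⟩, hdb⟩
    · show Function.Injective (T' t).l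
      rw [r1]; exact t.2.inj
    · show ∀ i, |(T' t).l i| ≤ (m : ℤ)
      rw [r1]; exact q4
  -- the fibres
  have hfib : ∀ a ∈ s.image F, (s.filter (fun t => F t = a)).card ≤ 64 * (2 * K + 1) ^ 9 := by
    intro a _
    set X := s.filter (fun t => F t = a) with hX
    have hXs : ∀ t ∈ X, t ∈ s ∧ F t = a := fun t ht => Finset.mem_filter.1 ht
    have hG : (X.image (fun t => g t.1)).card ≤ (2 * K + 1) ^ 9 := by
      apply hBM
      left
      intro γ hγ γ' hγ'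
      obtain ⟨t, ht, rfl⟩ := Finset.mem_image.1 hγ
      obtain ⟨t', ht', rfl⟩ := Finset.mem_image.1 hγ'
      obtain ⟨ts, tF⟩ := hXs t ht
      obtain ⟨ts', tF'⟩ := hXs t' ht'
      have hTT : T t.1 = T t'.1 := by
        have := tF.trans tF'.symm
        exact congrArg Prod.fst this
      obtain ⟨q1, q2, q3, q4, q5, q6, q7, q8⟩ := hs t ts
      obtain ⟨q1', q2', q3', q4', q5', q6', q7', q8'⟩ := hs t' ts'
      have hev : t.1.ev = t'.1.ev := congrArg Tup.l hTT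
      have hA' : A t.1 = A t'.1 := congrArg Tup.a hTT
      have hC' : Cc t.1 = Cc t'.1 := congrArg Tup.c hTT
      have hB' : B t.1 = B t'.1 := congrArg Tup.b hTT
      exact hK t.1 t'.1 (g t.1) (g t'.1) (A t.1) (Cc t.1) (B t.1) p q (hconj _)
        (by rw [hA', hC', hB']; exact hconj _) hev (hg0 _) (hg0 _) (hgw _) (hgw _) q1 q1' q7 q8
        q7' q8'
    have h64 : X.card ≤ 64 * (X.image (fun t => g t.1)).card := by
      apply Finset.card_le_mul_card_image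
      intro γ _
      apply same_card_pair hSGN _ (conjZ γ⁻¹ (tri a.1.l a.1.a a.1.c a.1.b))
        (conjZ γ⁻¹ (tri a.2.l a.2.a a.2.c a.2.b)) a.1.l a.2.l
      intro t ht
      obtain ⟨ht1, hγ⟩ := Finset.mem_filter.1 ht
      obtain ⟨ts, tF⟩ := hXs t ht1
      obtain ⟨q1, q2, q3, q4, q5, q6, q7, q8⟩ := hs t ts
      obtain ⟨r1, r2⟩ := hT' t q5 q6
      have tF1 : T t.1 = a.1 := congrArg Prod.fst tF
      have tF2 : T' t = a.2 := congrArg Prod.snd tF
      have hγ' : g t.1 = γ := hγ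
      have h1 := hconj t.1
      rw [hγ'] at h1 r2
      refine ⟨⟨?_, ?_⟩, ⟨?_, ?_⟩⟩
      · apply conj_back
        rw [h1, ← tF1]
      · rw [← tF1]
      · apply conj_back
        rw [r2, ← tF2]
      · rw [← tF2, r1]
    calc X.card ≤ _ := h64
      _ ≤ 64 * (2 * K + 1) ^ 9 := Nat.mul_le_mul_left _ hG
  have hcard := Finset.card_le_mul_card_image s _ hfib
  have hcardR : (s.card : ℝ) ≤ 64 * (2 * K + 1) ^ 9 * ((s.image F).card : ℝ) := by
    exact_mod_cast hcard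
  refine hcardR.trans ?_
  have h9 : (64 * (2 * K + 1) ^ 9 : ℝ) * ((s.image F).card : ℝ)
      ≤ (64 * (2 * K + 1) ^ 9 : ℝ) * (CP * (m : ℝ) ^ 12 * (d1 * d2 * d3)) := by
    gcongr
  refine h9.trans (le_of_eq ?_)
  have h10 : Real.exp (2 * (p + q)) = P ^ 2 * Q ^ 2 := by
    rw [mul_add, Real.exp_add, hP2, hQ2]
  rw [h10, hd1, hd2, hd3]
  field_simp

end KF48
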